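import Pool.Agent.Helper377_G1.Final

/-!
Noetherian Hopf algebras for which the submodules of the lowest group `Ext^n_H(k, H)` have grade at
least `n`, on both sides.
-/

set_option autoImplicit false

open CategoryTheory
open scoped TensorProduct

namespace Pool.Agent.Helper377_G1

open Pool.Agent.Helper202_BG Pool.Agent.Helper377_AG

/-- all submodules of `X` have grade at least `n` -/
def GradeGE (B : Type) [Ring B] (X : Type) [AddCommGroup X] [Module B X] (n : ℕ) : Prop :=
  ∀ (N : Submodule B X) (i : ℕ), i < n → Subsingleton (E B N B i)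

theorem GradeGE.self {B : Type} [Ring B] {X : Type} [AddCommGroup X] [Module B X] {n : ℕ}
    (h : GradeGE B X n) (i : ℕ) (hi : i < n) : Subsingleton (E B X B i) :=
  sub_of_equiv (Submodule.topEquiv : (⊤ : Submodule B X) ≃ₗ[B] X) i (h ⊤ i hi)

section pair
variable {k A B : Type} [Field k] [Ring A] [HopfAlgebra k A] [Ring B] [HopfAlgebra k B]
variable (τ : Anti A B) (hτ : ∀ (c : k) (a : A), τ.f (c • a) = c • τ.f a)

instance instFinTr : Module.Finite A (Tr (eps k A)) := by
  have : Module.Finite k (Tr (eps k A)) := inferInstanceAs (Module.Finite k k)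
  exact Module.Finite.of_restrictScalars_finite k A _

include hτ in
theorem aus_half (hA : IsNoetherianRing A) (hB : IsNoetherianRing B) (m : ℕ)
    (hY : ∀ i, i < m + 1 → Subsingleton (E B (Tr (eps k B)) B i))
    (hYn : ¬ Subsingleton (E B (Tr (eps k B)) B (m + 1)))
    (hg : ∀ i, i < m + 1 → Subsingleton (E A (EM τ.symm (Tr (eps k B)) (m + 1)) A i)) :
    IDLT A A (m + 2) := by
  have hnoe : IsNoetherian A (EM τ.symm (Tr (eps k B)) (m + 1)) :=
    EM_noeth τ.symm (Tr (eps k B)) m fun i _ hi => hY i (by omega)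
  have hfin : Module.Finite A (EM τ.symm (Tr (eps k B)) (m + 1)) := Module.IsNoetherian.finite _ _
  have hnt : Nontrivial (EM τ.symm (Tr (eps k B)) (m + 1)) :=
    not_subsingleton_iff_nontrivial.1 hYn
  refine half τ hτ hA (m + 1) hY _ hg LinearMap.id ?_
  intro h
  obtain ⟨y, hy⟩ := exists_ne (0 : EM τ.symm (Tr (eps k B)) (m + 1))
  exact hy (LinearMap.congr_fun h y)

include hτ in
theorem aus_side (hA : IsNoetherianRing A) (hB : IsNoetherianRing B) (m : ℕ)
    (hX : ∀ i, i < m + 1 → Subsingleton (E A (Tr (eps k A)) A i))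
    (hXn : ¬ Subsingleton (E A (Tr (eps k A)) A (m + 1)))
    (hgX : GradeGE B (EM τ (Tr (eps k A)) (m + 1)) (m + 1))
    (hgY : GradeGE A (EM τ.symm (Tr (eps k B)) (m + 1)) (m + 1)) :
    injectiveDimension (ModuleCat.of A A) = (m + 1 : ℕ) ∧
      (∀ i : ℕ, i ≠ m + 1 → Subsingleton (Abelian.Ext.{0} (TrO k A) (ModuleCat.of A A) i)) ∧
      SimpleX k (TrO k A) (ModuleCat.of A A) (m + 1) := by
  have hY : ∀ i, i < m + 1 → Subsingleton (E B (Tr (eps k B)) B i) := fun i hi =>
    (taskS k A B τ hτ hA hB i).1 (hX i hi)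
  have hYn : ¬ Subsingleton (E B (Tr (eps k B)) B (m + 1)) := fun h =>
    hXn ((taskS k A B τ hτ hA hB (m + 1)).2 h)
  have hIA := aus_half τ hτ hA hB m hY hYn hgY.self
  have hIB := aus_half τ.symm (anti_symm_smul τ hτ) hB hA m hX hXn hgX.self
  have hnoe : IsNoetherian B (EM τ (Tr (eps k A)) (m + 1)) :=
    EM_noeth τ (Tr (eps k A)) m fun i _ hi => hX i (by omega)
  have hnt : Nontrivial (EM τ (Tr (eps k A)) (m + 1)) := not_subsingleton_iff_nontrivial.1 hXn
  have hst : IsScalarTower k B (EM τ (Tr (eps k A)) (m + 1)) := EM_tower τ hτ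
  obtain ⟨x₁, hx₁⟩ := one_dim τ hτ (m + 1) hX hIB
  obtain ⟨hsim, hend⟩ := simple_of (k := k) τ m hIA hIB (EM τ (Tr (eps k A)) (m + 1)) hgX x₁ hx₁
  refine ⟨?_, ?_, simpleX_of τ hsim hend⟩
  · apply le_antisymm
    · exact (injectiveDimension_le_iff _ (m + 1)).2 hIA
    · rw [injectiveDimension_ge_iff]
      intro hc
      exact hXn (HasInjectiveDimensionLT.subsingleton (ModuleCat.of A A) (m + 1) (m + 1) le_rfl
        (TrO k A))
  · intro i hi
    rcases lt_or_gt_of_ne hi with h | h
    · exact hX i h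
    · exact HasInjectiveDimensionLT.subsingleton (ModuleCat.of A A) (m + 2) i (by omega) (TrO k A)

end pair

end Pool.Agent.Helper377_G1
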