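import Pool.Agent.Helper377_AG.Defs

/-!
Semiprime noetherian Hopf algebras with `Ext^1_H(k, H) ≠ 0`: definitions and the statements of the
tasks.  See `Helper377_AG.Defs` for `Anti`, `rm`, `Tr`, `eps`, `IDLT`, and `Helper202_BG.Defs`,
`Helper202_BG.ExtTools` for `E`, `post`, `pre` and the tools for Ext groups.
-/

set_option autoImplicit false

open CategoryTheory
open scoped TensorProduct

namespace Pool.Agent.Helper377_G1

open Pool.Agent.Helper202_BG Pool.Agent.Helper377_AG

/-- semiprime rings -/
def SemiprimeR (A : Type) [Ring A] : Prop := ∀ a : A, (∀ r, a * r * a = 0) → a = 0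

/-- essential left ideals -/
def EssL {A : Type} [Ring A] (I : Ideal A) : Prop := ∀ J : Ideal A, J ≠ ⊥ → I ⊓ J ≠ ⊥

/-- regular elements -/
def Reg {A : Type} [Ring A] (c : A) : Prop := (∀ x, c * x = 0 → x = 0) ∧ ∀ x, x * c = 0 → x = 0

/-- Task Go (Goldie): essential left ideals of semiprime left noetherian rings contain regular
elements, and left ideals generated by elements with zero left annihilator are essential. -/
def TaskGo : Prop :=
  (∀ (A : Type) [Ring A] [IsNoetherianRing A], SemiprimeR A → ∀ I : Ideal A, EssL I →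
    ∃ c ∈ I, Reg c) ∧
  ∀ (A : Type) [Ring A] [IsNoetherianRing A] (c : A), (∀ x, x * c = 0 → x = 0) →
    EssL (Ideal.span {c})

/-- Task Tor: `Ext^1` of a cyclic torsion module with values in the ring is torsion. -/
def TaskTor : Prop :=
  ∀ (A B : Type) [Ring A] [Ring B] (τ : Anti A B) [IsNoetherianRing A] [IsNoetherianRing B],
    SemiprimeR A → ∀ (M : Type) [AddCommGroup M] [Module B M] (m : M),
      Submodule.span B {m} = ⊤ → EssL (LinearMap.ker (LinearMap.toSpanSingleton B M m)) →
        ∀ y : E B M B 1, ∃ c : A, Reg c ∧ post (rm (τ.f c)) y = 0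

/-- Task NZ: over a noetherian ring of finite injective dimension on the other side, nonzero
finitely generated modules have a nonzero Ext group with values in the ring. -/
def TaskNZ : Prop :=
  ∀ (A B : Type) [Ring A] [Ring B] (τ : Anti A B) [IsNoetherianRing A] [IsNoetherianRing B]
    (n : ℕ), IDLT A A (n + 1) → ∀ (M : Type) [AddCommGroup M] [Module B M] [Module.Finite B M],
      (∀ i, Subsingleton (E B M B i)) → Subsingleton M

/-- Task X0: integrals in semiprime Hopf algebras. -/
def TaskX0 : Prop :=
  ∀ (k A : Type) [Field k] [Ring A] [HopfAlgebra k A], SemiprimeR A →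
    Module.Finite k (E A (Tr (eps k A)) A 0)

end Pool.Agent.Helper377_G1
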