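import Pool.Agent.Helper377_G1.Defs
import Pool.Agent.Helper377_AG.TaskQ
import Pool.Agent.Helper377_AG.P

/-!
Job G1-NZ: over a noetherian ring of finite injective dimension on the other side, a finitely
generated module all of whose Ext groups with values in the ring vanish is zero.
-/

set_option autoImplicit false

open CategoryTheory

namespace Pool.Agent.Helper377_G1

open Pool.Agent.Helper202_BG Pool.Agent.Helper377_AG

namespace NZ

theorem chain_sub {A : Type} [Ring A] {j : ℕ} : ∀ {N Q : ModuleCat.{0} A}, Chain A j N Q →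
    ∀ i : ℕ, 1 ≤ i → Subsingleton (E A Q A (i + j)) → Subsingleton (E A N A i) := by
  induction j with
  | zero =>
    intro N Q h i _ hQ
    obtain ⟨e⟩ := h
    have key : ∀ ξ : E A N A i, ξ = 0 := by
      intro ξ
      have h1 : ξ = pre e.toLinearMap (pre e.symm.toLinearMap ξ) := by
        rw [← pre_comp]
        have : e.symm.toLinearMap ∘ₗ e.toLinearMap = LinearMap.id := by ext x; simp
        rw [this, pre_id]
      have h2 : (pre e.symm.toLinearMap ξ : E A Q A i) = 0 := hQ.elim _ _
      rw [h1, h2, pre_zero]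
    exact ⟨fun a b => by rw [key a, key b]⟩
  | succ j ih =>
    intro N Q h i hi hQ
    obtain ⟨s, f, hf, hc⟩ := h
    have h1 : SES f (LinearMap.range f).mkQ := SES.ofInj hf
    have hcast : i + (j + 1) = i + 1 + j := by omega
    rw [hcast] at hQ
    have h2 := ih hc (i + 1) (by omega) hQ
    have key : ∀ ξ : E A N A i, ξ = 0 := by
      intro ξ
      obtain ⟨ζ, hζ⟩ := con1 h1 ξ (h2.elim _ _)
      obtain ⟨m, rfl⟩ : ∃ m, i = m + 1 := ⟨i - 1, by omega⟩
      have hP : Module.Projective A (Fin s → A) := Module.Projective.of_free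
      rw [← hζ, E_proj ζ, pre_zero]
    exact ⟨fun a b => by rw [key a, key b]⟩

end NZ

theorem taskNZ : TaskNZ := by
  intro A B _ _ τ _ _ n hid M _ _ _ hM
  obtain ⟨r, v, hv⟩ := Module.Finite.exists_fin (R := B) (M := M)
  have hfg : (LinearMap.ker (Fintype.linearCombination B v)).FG := IsNoetherian.noetherian _
  obtain ⟨s, w, hw⟩ := Submodule.fg_iff_exists_fin_generating_family.1 hfg
  obtain ⟨Q, hc, -⟩ := taskQ B A τ.symm n M r v hv (fun i _ _ => hM i) s w hw
  have hinj := mat_injective τ.symm hv hw (hM 0)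
  have h1 : SES (mat τ.symm w) (LinearMap.range (mat τ.symm w)).mkQ := SES.ofInj hinj
  have hQ : Subsingleton (E A Q A (1 + n)) :=
    HasInjectiveDimensionLT.subsingleton (ModuleCat.of A A) (n + 1) (1 + n) (by omega) _
  have hN := NZ.chain_sub hc 1 le_rfl hQ
  have hfun : ∀ f : (Fin r → A) →ₗ[A] A, ∃ b : Fin s → A, ∀ α, f α = coef b (mat τ.symm w α) := by
    intro f
    obtain ⟨ζ, hζ⟩ := con1 h1 (hom0 f) (hN.elim _ _)
    obtain ⟨g, rfl⟩ := hom0_surj ζ
    rw [pre_hom0] at hζ
    have h2 := hom0_inj hζ
    obtain ⟨b, rfl⟩ := exists_coef g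
    exact ⟨b, fun α => (LinearMap.congr_fun h2 α).symm⟩
  have hv0 : ∀ u, v u = 0 := by
    intro u
    obtain ⟨b, hb⟩ := hfun (LinearMap.proj u)
    have h3 : (Pi.single u 1 : Fin r → B) = ∑ t, τ.f (b t) • w t := by
      funext u'
      rw [Finset.sum_apply]
      have h4 := hb (Pi.single u' 1)
      rw [LinearMap.proj_apply, coef_apply] at h4
      have h5 : ∀ t, mat τ.symm w (Pi.single u' 1) t = τ.symm.f (w t u') := by
        intro t
        rw [mat_apply, Finset.sum_eq_single u']
        · simp
        · intro x _ hx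
          simp [Pi.single_eq_of_ne hx]
        · simp
      simp only [h5] at h4
      have h6 := congrArg τ.f h4
      rw [map_sum] at h6
      simp only [τ.mul, Anti.f_symm_apply] at h6
      simp only [Pi.smul_apply, smul_eq_mul]
      rw [← h6]
      rcases eq_or_ne u u' with h | h
      · subst h; simp [τ.one]
      · rw [Pi.single_eq_of_ne h, Pi.single_eq_of_ne (Ne.symm h), map_zero]
    have h7 : (Pi.single u 1 : Fin r → B) ∈ LinearMap.ker (Fintype.linearCombination B v) := by
      rw [h3, ← hw]
      exact Submodule.sum_mem _ (fun t _ => Submodule.smul_mem _ _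
        (Submodule.subset_span ⟨t, rfl⟩))
    rw [LinearMap.mem_ker] at h7
    simpa using h7
  have hv' : Set.range v ⊆ {0} := by
    rintro _ ⟨u, rfl⟩
    exact hv0 u
  have h8 : (⊤ : Submodule B M) = ⊥ := by
    rw [← hv, eq_bot_iff, Submodule.span_le]
    intro x hx
    exact hv' hx
  exact (Submodule.subsingleton_iff B).1 (subsingleton_of_bot_eq_top h8.symm)

end Pool.Agent.Helper377_G1
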