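import Pool.Agent.Helper377_G1.Defs
import Pool.Agent.Helper377_G1.TaskNZ
import Pool.Agent.Helper377_AG.Main

/-!
The module structure on `Ext^n_A(M, A)`, and the statements of further tasks.
-/

set_option autoImplicit false

open CategoryTheory
open scoped TensorProduct

namespace Pool.Agent.Helper377_G1

open Pool.Agent.Helper202_BG Pool.Agent.Helper377_AG

/-- `Ext^n_A(M, A)` as a left module over `B`, i.e. as a right module over `A` -/
def EM {A B : Type} [Ring A] [Ring B] (_ : Anti A B) (M : Type) [AddCommGroup M] [Module A M]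
    (n : ℕ) : Type := E A M A n

section
variable {A B : Type} [Ring A] [Ring B] (τ : Anti A B) (M : Type) [AddCommGroup M] [Module A M]
  (n : ℕ)

/-- the identity map -/
def toEM (ξ : E A M A n) : EM τ M n := ξ

/-- the identity map -/
def ofEM (ξ : EM τ M n) : E A M A n := ξ

noncomputable instance : AddCommGroup (EM τ M n) := inferInstanceAs (AddCommGroup (E A M A n))

noncomputable instance : Module B (EM τ M n) where
  smul b u := toEM τ M n (post (rm (τ.symm.f b)) (ofEM τ M n u))
  one_smul u := by
    change post (rm (τ.symm.f 1)) (ofEM τ M n u) = _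
    rw [τ.symm.one]
    have : (rm (1 : A)) = LinearMap.id := by ext; simp
    rw [this, post_id]
    rfl
  mul_smul b c u := by
    change post (rm (τ.symm.f (b * c))) (ofEM τ M n u) =
      post (rm (τ.symm.f b)) (post (rm (τ.symm.f c)) (ofEM τ M n u))
    rw [← post_comp]
    congr 1
    ext
    simp [τ.symm.mul]
  smul_zero b := post_zero _
  smul_add b u v := post_add _ _ _
  add_smul b c u := by
    change post (rm (τ.symm.f (b + c))) (ofEM τ M n u) =
      post (rm (τ.symm.f b)) (ofEM τ M n u) + post (rm (τ.symm.f c)) (ofEM τ M n u)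
    rw [← add_post]
    congr 1
    ext
    simp
  zero_smul u := by
    change post (rm (τ.symm.f 0)) (ofEM τ M n u) = _
    have : rm (τ.symm.f (0 : B)) = (0 : A →ₗ[A] A) := by ext; simp
    rw [this, zero_post]
    rfl

theorem EM.smul_def (b : B) (u : EM τ M n) :
    b • u = toEM τ M n (post (rm (τ.symm.f b)) (ofEM τ M n u)) := rfl

theorem ofEM_add (u v : EM τ M n) : ofEM τ M n (u + v) = ofEM τ M n u + ofEM τ M n v := rfl

theorem ofEM_smul (b : B) (u : EM τ M n) :
    ofEM τ M n (b • u) = post (rm (τ.symm.f b)) (ofEM τ M n u) := rfl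

end

/-- finite generation along a chain of cosyzygies -/
theorem chain_fg {B : Type} [Ring B] {j : ℕ} : ∀ {N Q : ModuleCat.{0} B}, Chain B j N Q →
    Module.Finite B N → Module.Finite B Q := by
  induction j with
  | zero =>
    intro N Q h hN
    obtain ⟨e⟩ := h
    exact Module.Finite.equiv e
  | succ j ih =>
    intro N Q h _
    obtain ⟨s, f, hf, hc⟩ := h
    exact ih hc (inferInstanceAs (Module.Finite B ((Fin s → B) ⧸ LinearMap.range f)))

/-- The first nonzero group `Ext^n_A(M, A)`, `n ≥ 1`, is a noetherian module. -/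
theorem EM_noeth {A B : Type} [Ring A] [Ring B] (τ : Anti A B) [IsNoetherianRing A]
    [IsNoetherianRing B] (M : Type) [AddCommGroup M] [Module A M] [Module.Finite A M] (j : ℕ)
    (h : ∀ i, 1 ≤ i → i ≤ j → Subsingleton (E A M A i)) : IsNoetherian B (EM τ M (j + 1)) := by
  obtain ⟨r, v, hv⟩ := Module.Finite.exists_fin (R := A) (M := M)
  have hfg : (LinearMap.ker (Fintype.linearCombination A v)).FG := IsNoetherian.noetherian _
  obtain ⟨s, w, hw⟩ := Submodule.fg_iff_exists_fin_generating_family.1 hfg
  obtain ⟨Q, hch, ι, hι, hι'⟩ := taskQ A B τ j M r v hv h s w hw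
  have hQ : Module.Finite B Q :=
    chain_fg hch (inferInstanceAs (Module.Finite B ((Fin s → B) ⧸ LinearMap.range (mat τ w))))
  have hQn : IsNoetherian B Q := isNoetherian_of_isNoetherianRing_of_finite B Q
  let f : EM τ M (j + 1) →ₗ[B] Q :=
    { toFun := fun u => ι (ofEM τ M (j + 1) u)
      map_add' := fun u v => by rw [ofEM_add, map_add]
      map_smul' := fun b u => by
        rw [ofEM_smul, hι', Anti.f_symm_apply, RingHom.id_apply] }
  exact isNoetherian_of_injective f fun u v h => hι h

/-! ### Statements of tasks -/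

/-- Task Art: torsion modules have finite length. -/
def TaskArt : Prop :=
  ∀ (A B : Type) [Ring A] [Ring B] (_ : Anti A B) [IsNoetherianRing A] [IsNoetherianRing B],
    IDLT A A 2 → IDLT B B 2 → ∀ (M : Type) [AddCommGroup M] [Module B M] [Module.Finite B M],
      (∀ m : M, ∃ c : B, (∀ x : B, c * x = 0 → x = 0) ∧ c • m = 0) → IsArtinian B M

/-- Task Den: simple modules with trivial endomorphism ring over artinian factor rings. -/
def TaskDen : Prop :=
  ∀ (k B : Type) [Field k] [Ring B] [Algebra k B] (X : Type) [AddCommGroup X] [Module B X]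
    [Module k X] [IsScalarTower k B X], IsSimpleModule B X →
    (∀ θ : X →ₗ[B] X, ∃ c : k, ∀ x, θ x = c • x) →
    IsArtinian B (B ⧸ Module.annihilator B X) → Module.Finite k X

end Pool.Agent.Helper377_G1
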