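import Pool.Agent.Helper377_G1.Main2
import Pool.Agent.Helper377_AG.Final

/-!
Semiprime noetherian Hopf algebras with `Ext^1_H(k, H) ≠ 0`, in terms of objects of module
categories.
-/

set_option autoImplicit false

open CategoryTheory
open scoped TensorProduct

namespace Pool.Agent.Helper377_G1

open Pool.Agent.Helper202_BG Pool.Agent.Helper377_AG

section cat
variable (k : Type) [Field k] {A : Type} [Ring A] [Algebra k A]

/-- `Ext^n(T, R)` is a simple module over the endomorphism ring of `R` and its endomorphisms are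
scalars -/
def SimpleX (T R : ModuleCat.{0} A) (n : ℕ) : Prop :=
  Nontrivial (Abelian.Ext.{0} T R n) ∧
  (∀ S : AddSubgroup (Abelian.Ext.{0} T R n),
    (∀ (g : R ⟶ R) (ξ : Abelian.Ext.{0} T R n), ξ ∈ S →
      ξ.comp (Abelian.Ext.mk₀ g) (add_zero n) ∈ S) → S = ⊥ ∨ S = ⊤) ∧
  ∀ θ : Abelian.Ext.{0} T R n →+ Abelian.Ext.{0} T R n,
    (∀ (g : R ⟶ R) (ξ : Abelian.Ext.{0} T R n),
      θ (ξ.comp (Abelian.Ext.mk₀ g) (add_zero n)) =
        (θ ξ).comp (Abelian.Ext.mk₀ g) (add_zero n)) → ∃ c : k, ∀ ξ, θ ξ = c • ξ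

variable {k}

theorem SimpleX.iso {T T' R R' : ModuleCat.{0} A} (eT : T ≅ T') (eR : R ≅ R') {n : ℕ}
    (h : SimpleX k T R n) : SimpleX k T' R' n := by
  obtain ⟨h1, h2, h3⟩ := h
  let e := extIso k eT eR n
  have hcomp : ∀ (g : R' ⟶ R') (ξ : Abelian.Ext.{0} T R n),
      (e ξ).comp (Abelian.Ext.mk₀ g) (add_zero n) =
        e (ξ.comp (Abelian.Ext.mk₀ (eR.hom ≫ g ≫ eR.inv)) (add_zero n)) := by
    intro g ξ
    simp [e, extIso]
  have hcomp' : ∀ (g : R ⟶ R) (ξ : Abelian.Ext.{0} T' R' n),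
      (e.symm ξ).comp (Abelian.Ext.mk₀ g) (add_zero n) =
        e.symm (ξ.comp (Abelian.Ext.mk₀ (eR.inv ≫ g ≫ eR.hom)) (add_zero n)) := by
    intro g ξ
    simp [e, extIso]
  refine ⟨e.symm.toEquiv.nontrivial, ?_, ?_⟩
  · intro S hS
    rcases h2 (S.comap e.toAddEquiv.toAddMonoidHom) (fun g ξ hξ => by
      change e (ξ.comp (Abelian.Ext.mk₀ g) (add_zero n)) ∈ S
      have h4 := hS (eR.inv ≫ g ≫ eR.hom) (e ξ) hξ
      rw [hcomp] at h4
      simpa using h4) with h | h
    · left
      rw [AddSubgroup.eq_bot_iff_forall] at h ⊢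
      intro ξ hξ
      have h4 := h (e.symm ξ) (by
        change e (e.symm ξ) ∈ S
        rwa [LinearEquiv.apply_symm_apply])
      have h5 := congrArg e h4
      rwa [LinearEquiv.apply_symm_apply, map_zero] at h5
    · right
      rw [eq_top_iff]
      intro ξ _
      have h4 : e.symm ξ ∈ S.comap e.toAddEquiv.toAddMonoidHom := by rw [h]; trivial
      change e (e.symm ξ) ∈ S at h4
      rwa [LinearEquiv.apply_symm_apply] at h4
  · intro θ hθ
    let θ' : Abelian.Ext.{0} T R n →+ Abelian.Ext.{0} T R n :=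
      (e.symm.toAddEquiv.toAddMonoidHom.comp θ).comp e.toAddEquiv.toAddMonoidHom
    have hθ' : ∀ ξ, θ' ξ = e.symm (θ (e ξ)) := fun ξ => rfl
    obtain ⟨c, hc⟩ := h3 θ' (fun g ξ => by
      rw [hθ', hθ', hcomp', ← hθ, hcomp]
      simp)
    refine ⟨c, fun ξ => ?_⟩
    have h4 := congrArg e (hc (e.symm ξ))
    rw [hθ', LinearEquiv.apply_symm_apply, LinearEquiv.apply_symm_apply, map_smul,
      LinearEquiv.apply_symm_apply] at h4
    exact h4

end cat

section pair
variable {k A B : Type} [Field k] [Ring A] [HopfAlgebra k A] [Ring B] [HopfAlgebra k B]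
variable (τ : Anti A B)

theorem simpleX_of {n : ℕ} (h1 : IsSimpleModule B (EM τ (Tr (eps k A)) n))
    (h2 : ∀ θ : EM τ (Tr (eps k A)) n →ₗ[B] EM τ (Tr (eps k A)) n, ∃ c : k, ∀ x, θ x = c • x) :
    SimpleX k (TrO k A) (ModuleCat.of A A) n := by
  refine ⟨IsSimpleModule.nontrivial B (EM τ (Tr (eps k A)) n), ?_, ?_⟩
  · intro S hS
    let S' : Submodule B (EM τ (Tr (eps k A)) n) :=
      { carrier := {x | ofEM τ _ n x ∈ S}
        add_mem' := fun {a b} ha hb => S.add_mem ha hb
        zero_mem' := S.zero_mem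
        smul_mem' := fun b x hx => hS (ModuleCat.ofHom (rm (τ.symm.f b))) _ hx }
    rcases eq_bot_or_eq_top S' with h | h
    · left
      rw [AddSubgroup.eq_bot_iff_forall]
      intro ξ hξ
      have h3 : (toEM τ _ n ξ) ∈ S' := hξ
      rw [h] at h3
      exact h3
    · right
      rw [eq_top_iff]
      intro ξ _
      have h3 : (toEM τ _ n ξ) ∈ S' := by rw [h]; trivial
      exact h3
  · intro θ hθ
    let θ' : EM τ (Tr (eps k A)) n →ₗ[B] EM τ (Tr (eps k A)) n :=
      { toFun := fun x => toEM τ _ n (θ (ofEM τ _ n x))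
        map_add' := fun x y => map_add θ _ _
        map_smul' := fun b x => hθ (ModuleCat.ofHom (rm (τ.symm.f b))) _ }
    obtain ⟨c, hc⟩ := h2 θ'
    exact ⟨c, hc⟩

variable (hτ : ∀ (c : k) (a : A), τ.f (c • a) = c • τ.f a)

include hτ in
theorem dim_one_side (hArt : TaskArt) (hDen : TaskDen) (hA : IsNoetherianRing A)
    (hB : IsNoetherianRing B) (hs : SemiprimeR A)
    (h1 : ¬ Subsingleton (E A (Tr (eps k A)) A 1)) :
    injectiveDimension (ModuleCat.of A A) = 1 ∧
      (∀ i : ℕ, i ≠ 1 → Subsingleton (Abelian.Ext.{0} (TrO k A) (ModuleCat.of A A) i)) ∧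
      SimpleX k (TrO k A) (ModuleCat.of A A) 1 ∧
      (Module.Finite k (Abelian.Ext.{0} (TrO k A) (ModuleCat.of A A) 1) ∨
        ∃ P : Ideal A, PrimeI P ∧ (∀ Q : Ideal A, PrimeI Q → Q ≤ P → Q = P) ∧
          ∀ a : A, a ∈ P ↔ ∀ ξ : E A (Tr (eps k A)) A 1, post (rm a) ξ = 0) := by
  obtain ⟨hIA, hIB, hX0, hsim, hend, hlast⟩ := dim_one_half τ hτ hArt hDen hA hB hs h1
  refine ⟨?_, ?_, simpleX_of τ hsim hend, ?_⟩
  · apply le_antisymm
    · exact (injectiveDimension_le_iff _ 1).2 hIA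
    · have := (injectiveDimension_ge_iff (ModuleCat.of A A) 1).2 (fun hc =>
        h1 (HasInjectiveDimensionLT.subsingleton (ModuleCat.of A A) 1 1 le_rfl (TrO k A)))
      exact_mod_cast this
  · intro i hi
    rcases lt_or_gt_of_ne hi with h | h
    · have : i = 0 := by omega
      subst this
      exact hX0
    · exact HasInjectiveDimensionLT.subsingleton (ModuleCat.of A A) 2 i h (TrO k A)
  · rcases hlast with h | h
    · left; exact h
    · right
      have hP : PrimeI (Module.annihilator B (EM τ (Tr (eps k A)) 1)) :=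
        primeI_ann _ (primeM_simple hsim)
      refine ⟨tid τ.symm _ hP.1, tid_prime τ.symm _ hP, ?_, ?_⟩
      · intro Q hQ hle
        have h2 := h (tid τ Q hQ.1) (tid_prime τ Q hQ) (fun b hb => by
          have h3 := hle ((mem_tid τ Q hQ.1 b).1 hb)
          rw [mem_tid] at h3
          have h4 : τ.symm.symm.f (τ.symm.f b) = b := τ.f.apply_symm_apply b
          rwa [h4] at h3)
        refine le_antisymm hle fun a ha => ?_
        rw [mem_tid, ← h2, mem_tid] at ha
        have h4 : τ.symm.f (τ.symm.symm.f a) = a := τ.f.symm_apply_apply a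
        rwa [h4] at ha
      · intro a
        rw [mem_tid, Module.mem_annihilator]
        have h4 : τ.symm.f (τ.symm.symm.f a) = a := τ.f.symm_apply_apply a
        constructor
        · intro h5 ξ
          have h6 := h5 (toEM τ _ 1 ξ)
          rw [EM.smul_def, h4] at h6
          exact h6
        · intro h5 x
          rw [EM.smul_def, h4]
          exact h5 (ofEM τ _ 1 x)

end pair

end Pool.Agent.Helper377_G1
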