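import Pool.Agent.Helper377_G1.Defs

set_option autoImplicit false

namespace Pool.Agent.Helper377_G1

namespace GoAux

variable {A : Type} [Ring A]

/-- left annihilator -/
def ann (a : A) : Ideal A := LinearMap.ker (LinearMap.toSpanSingleton A A a)

theorem mem_ann {a x : A} : x ∈ ann a ↔ x * a = 0 := by
  unfold ann
  rw [LinearMap.mem_ker, LinearMap.toSpanSingleton_apply, smul_eq_mul]

theorem EssL.mono {I J : Ideal A} (h : I ≤ J) (hI : EssL I) : EssL J := by
  intro K hK h0
  apply hI K hK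
  exact le_bot_iff.1 ((inf_le_inf_right K h).trans h0.le)

/-- the chain `J`, `J + Jc`, ... -/
def SS (J : Ideal A) (c : A) : ℕ → Ideal A
  | 0 => ⊥
  | n + 1 => J ⊔ Submodule.map (LinearMap.toSpanSingleton A A c) (SS J c n)

theorem SS_mono (J : Ideal A) (c : A) (n : ℕ) : SS J c n ≤ SS J c (n + 1) := by
  induction n with
  | zero => exact bot_le
  | succ n ih => exact sup_le_sup_left (Submodule.map_mono ih) J

theorem SS_ne (J : Ideal A) (c : A) (hc : ∀ x, x * c = 0 → x = 0) (hJ : J ≠ ⊥)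
    (hd : Ideal.span {c} ⊓ J = ⊥) (n : ℕ) : ¬ SS J c (n + 1) ≤ SS J c n := by
  induction n with
  | zero =>
    intro h
    apply hJ
    rw [← le_bot_iff]
    exact le_sup_left.trans h
  | succ n ih =>
    intro h
    apply ih
    intro s hs
    have h1 : s * c ∈ SS J c (n + 2) := by
      show s * c ∈ J ⊔ Submodule.map (LinearMap.toSpanSingleton A A c) (SS J c (n + 1))
      exact Submodule.mem_sup_right ⟨s, hs, by simp⟩
    have h2 : s * c ∈ J ⊔ Submodule.map (LinearMap.toSpanSingleton A A c) (SS J c n) := h h1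
    obtain ⟨j, hj, y, hy, hjy⟩ := Submodule.mem_sup.1 h2
    obtain ⟨z, hz, rfl⟩ := Submodule.mem_map.1 hy
    rw [LinearMap.toSpanSingleton_apply, smul_eq_mul] at hjy
    have h3 : j = (s - z) * c := by rw [sub_mul, ← hjy]; abel
    have h4 : j ∈ Ideal.span {c} ⊓ J :=
      ⟨by rw [h3]; exact Ideal.mul_mem_left _ _ (Ideal.mem_span_singleton_self c), hj⟩
    rw [hd, Submodule.mem_bot] at h4
    rw [h4] at h3
    have h5 := sub_eq_zero.1 (hc _ h3.symm)
    rw [h5]
    exact hz

theorem ess_span [IsNoetherianRing A] (c : A) (hc : ∀ x, x * c = 0 → x = 0) :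
    EssL (Ideal.span {c}) := by
  intro J hJ hd
  obtain ⟨n, hn⟩ := (monotone_stabilizes_iff_noetherian (R := A) (M := A)).2 inferInstance
    ⟨SS J c, monotone_nat_of_le_succ (SS_mono J c)⟩
  exact SS_ne J c hc hJ hd n (hn (n + 1) (Nat.le_succ n)).ge

theorem ann_le_mul (a w : A) : ann a ≤ ann (a * w) := by
  intro x hx
  rw [mem_ann] at hx ⊢
  rw [← mul_assoc, hx, zero_mul]

/-- Utumi -/
theorem nilr [IsNoetherianRing A] (hA : SemiprimeR A) (P : A → Prop)
    (hP : ∀ a, P a → ∀ r, P (a * r)) (hn : ∀ a, P a → IsNilpotent a) (a : A) (ha : P a) :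
    a = 0 := by
  by_contra h0
  obtain ⟨L, ⟨b, hb, hb0, rfl⟩, hmax⟩ := set_has_maximal_iff_noetherian.2
    (inferInstance : IsNoetherian A A) {L | ∃ b, P b ∧ b ≠ 0 ∧ L = ann b} ⟨ann a, a, ha, h0, rfl⟩
  apply hb0
  apply hA
  intro r
  by_cases hr : b * r = 0
  · rw [hr, zero_mul]
  · have hex : ∃ t, (b * r) ^ t = 0 := hn _ (hP b hb r)
    classical
    obtain ⟨t, ht, hmin⟩ : ∃ t, (b * r) ^ t = 0 ∧ ∀ s < t, (b * r) ^ s ≠ 0 :=
      ⟨Nat.find hex, Nat.find_spec hex, fun s hs => Nat.find_min hex hs⟩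
    have ht2 : 2 ≤ t := by
      by_contra hlt
      have h1 : t = 0 ∨ t = 1 := by omega
      rcases h1 with rfl | rfl
      · rw [pow_zero] at ht
        apply hr
        rw [← mul_one (b * r), ht, mul_zero]
      · rw [pow_one] at ht
        exact hr ht
    obtain ⟨s, rfl⟩ := Nat.exists_eq_add_of_le ht2
    have e : (b * r) ^ (s + 1) = b * (r * (b * r) ^ s) := by
      rw [pow_succ', mul_assoc]
    have h2 : (b * r) ^ (s + 1) ≠ 0 := hmin _ (by omega)
    have h3 : ¬ ann b < ann ((b * r) ^ (s + 1)) := hmax _ ⟨_, by rw [e]; exact hP b hb _, h2, rfl⟩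
    have h4 : ann b ≤ ann ((b * r) ^ (s + 1)) := by rw [e]; exact ann_le_mul _ _
    have h5 : ann ((b * r) ^ (s + 1)) ≤ ann b := by
      by_contra h6
      exact h3 (lt_of_le_not_ge h4 h6)
    have h6 : b * r ∈ ann ((b * r) ^ (s + 1)) := by
      rw [mem_ann, ← pow_succ']
      have : s + 1 + 1 = 2 + s := by omega
      rw [this]
      exact ht
    exact mem_ann.1 (h5 h6)

theorem ann_stab [IsNoetherianRing A] (x : A) : ∃ n, 1 ≤ n ∧ ∀ h, h * x ^ n * x ^ n = 0 →
    h * x ^ n = 0 := by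
  obtain ⟨n, hn⟩ := (monotone_stabilizes_iff_noetherian (R := A) (M := A)).2 inferInstance
    ⟨fun n => ann (x ^ n), monotone_nat_of_le_succ fun n => by
      rw [pow_succ]
      exact ann_le_mul _ _⟩
  refine ⟨n + 1, by omega, fun h hh => ?_⟩
  have h1 : h ∈ ann (x ^ ((n + 1) + (n + 1))) := by
    rw [mem_ann, pow_add, ← mul_assoc]
    exact hh
  have e1 := hn ((n + 1) + (n + 1)) (by omega)
  have e2 := hn (n + 1) (by omega)
  simp only [OrderHom.coe_mk] at e1 e2
  rw [← e1, e2] at h1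
  exact mem_ann.1 h1

/-- nonsingularity -/
theorem nonsing [IsNoetherianRing A] (hA : SemiprimeR A) (x : A) (hx : EssL (ann x)) : x = 0 := by
  refine nilr hA (fun x => EssL (ann x)) (fun a ha r => EssL.mono (ann_le_mul a r) ha) ?_ x hx
  intro a ha
  obtain ⟨n, hn1, hn⟩ := ann_stab a
  refine ⟨n, ?_⟩
  by_contra h0
  have h1 : EssL (ann (a ^ n)) := by
    obtain ⟨m, rfl⟩ := Nat.exists_eq_add_of_le' hn1
    rw [pow_succ']
    exact EssL.mono (ann_le_mul _ _) ha
  have h2 : Ideal.span {a ^ n} ≠ ⊥ := by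
    intro h
    apply h0
    have := Ideal.mem_span_singleton_self (a ^ n)
    rw [h, Submodule.mem_bot] at this
    exact this
  apply h1 _ h2
  rw [eq_bot_iff]
  rintro y ⟨hy1, hy2⟩
  obtain ⟨h, rfl⟩ := Submodule.mem_span_singleton.1 hy2
  rw [smul_eq_mul] at hy1 ⊢
  rw [Submodule.mem_bot]
  exact hn h (mem_ann.1 hy1)

theorem pow_swap (b r : A) (t : ℕ) : (b * r) ^ (t + 1) = b * (r * b) ^ t * r := by
  induction t with
  | zero => simp
  | succ t ih =>
    rw [pow_succ, ih, pow_succ (r * b)]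
    simp only [mul_assoc]

theorem exists_good [IsNoetherianRing A] (hA : SemiprimeR A) (K : Ideal A) (hK : K ≠ ⊥) :
    ∃ b ∈ K, b ≠ 0 ∧ ∀ x, x * b * b = 0 → x * b = 0 := by
  obtain ⟨b, hb, hnil⟩ : ∃ b ∈ K, ¬ IsNilpotent b := by
    by_contra hcon
    push Not at hcon
    obtain ⟨b, hb, hb0⟩ := Submodule.exists_mem_ne_zero_of_ne_bot hK
    apply hb0
    refine nilr hA (fun x => ∃ r, x = b * r) ?_ ?_ b ⟨1, (mul_one b).symm⟩
    · rintro _ ⟨r, rfl⟩ s
      exact ⟨r * s, mul_assoc _ _ _⟩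
    · rintro _ ⟨r, rfl⟩
      obtain ⟨t, ht⟩ := hcon (r * b) (K.mul_mem_left r hb)
      exact ⟨t + 1, by rw [pow_swap, ht, mul_zero, zero_mul]⟩
  obtain ⟨n, hn1, hn⟩ := ann_stab b
  refine ⟨b ^ n, ?_, fun h => hnil ⟨n, h⟩, hn⟩
  obtain ⟨m, rfl⟩ := Nat.exists_eq_add_of_le' hn1
  rw [pow_succ]
  exact K.mul_mem_left _ hb

/-- chains -/
structure Ch (I : Ideal A) (l : List A) : Prop where
  pw : l.Pairwise fun a b => b * a = 0
  mem : ∀ a ∈ l, a ∈ I
  good : ∀ a ∈ l, ∀ x, x * a * a = 0 → x * a = 0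

theorem sum_kill {l : List A} {a : A} (h : ∀ b ∈ l, b * a = 0) : l.sum * a = 0 := by
  induction l with
  | nil => simp
  | cons b l ih =>
    rw [List.sum_cons, add_mul, h b List.mem_cons_self, zero_add]
    exact ih fun c hc => h c (List.mem_cons_of_mem _ hc)

theorem Ch.tail {I : Ideal A} {a : A} {l : List A} (h : Ch I (a :: l)) : Ch I l :=
  ⟨(List.pairwise_cons.1 h.pw).2, fun b hb => h.mem b (List.mem_cons_of_mem _ hb),
    fun b hb => h.good b (List.mem_cons_of_mem _ hb)⟩

theorem Ch.kill {I : Ideal A} {l : List A} (h : Ch I l) (x : A) (hx : x * l.sum = 0) :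
    ∀ a ∈ l, x * a = 0 := by
  induction l with
  | nil => intro a ha; exact absurd ha List.not_mem_nil
  | cons a l ih =>
    have h1 : x * a * a = 0 := by
      have h2 : l.sum * a = 0 := sum_kill (List.pairwise_cons.1 h.pw).1
      calc x * a * a = x * (a + l.sum) * a := by
            rw [mul_add, add_mul, mul_assoc x l.sum a, h2, mul_zero, add_zero]
        _ = 0 := by rw [← List.sum_cons, hx, zero_mul]
    have h3 : x * a = 0 := h.good a List.mem_cons_self x h1
    have h4 : x * l.sum = 0 := by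
      rw [List.sum_cons, mul_add, h3, zero_add] at hx
      exact hx
    intro b hb
    rcases List.mem_cons.1 hb with rfl | hb
    · exact h3
    · exact ih h.tail h4 b hb

theorem Ch.indep {I : Ideal A} {l : List A} (h : Ch I l) (b : A)
    (hb : b ∈ Submodule.span A {a | a ∈ l}) (hk : ∀ a ∈ l, b * a = 0) : b = 0 := by
  induction l generalizing b with
  | nil =>
    have : {a : A | a ∈ ([] : List A)} = ∅ := by
      ext a
      simp
    rw [this, Submodule.span_empty, Submodule.mem_bot] at hb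
    exact hb
  | cons a l ih =>
    have e : {x : A | x ∈ a :: l} = insert a {x | x ∈ l} := by
      ext x
      simp
    rw [e] at hb
    obtain ⟨r, s, hs, rfl⟩ := Submodule.mem_span_insert.1 hb
    have h1 : s * a = 0 := by
      have h2 : Submodule.span A {x | x ∈ l} ≤ ann a := by
        rw [Submodule.span_le]
        intro x hx
        exact mem_ann.2 ((List.pairwise_cons.1 h.pw).1 x hx)
      exact mem_ann.1 (h2 hs)
    have h3 := hk a List.mem_cons_self
    rw [smul_eq_mul, add_mul, h1, add_zero] at h3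
    have h4 : r * a = 0 := h.good a List.mem_cons_self r h3
    have e2 : r • a + s = s := by rw [smul_eq_mul, h4, zero_add]
    rw [e2] at hk ⊢
    exact ih h.tail s hs fun c hc => hk c (List.mem_cons_of_mem _ hc)

/-- common left annihilator -/
def annL (l : List A) : Ideal A where
  carrier := {x | ∀ a ∈ l, x * a = 0}
  add_mem' := by
    intro x y hx hy a ha
    rw [add_mul, hx a ha, hy a ha, add_zero]
  zero_mem' := by
    intro a _
    exact zero_mul a
  smul_mem' := by
    intro c x hx a ha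
    rw [smul_eq_mul, mul_assoc, hx a ha, mul_zero]

theorem exists_chain [IsNoetherianRing A] (hA : SemiprimeR A) (I : Ideal A) :
    ∃ l : List A, Ch I l ∧ I ⊓ annL l = ⊥ := by
  obtain ⟨K, ⟨l, hl, rfl⟩, hmax⟩ := set_has_maximal_iff_noetherian.2
    (inferInstance : IsNoetherian A A) {K | ∃ l : List A, Ch I l ∧ K = Submodule.span A {a | a ∈ l}}
    ⟨_, [], ⟨List.Pairwise.nil, by simp, by simp⟩, rfl⟩
  refine ⟨l, hl, ?_⟩
  by_contra hne
  obtain ⟨b, hbK, hb0, hbg⟩ := exists_good hA _ hne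
  have hch : Ch I (l ++ [b]) := by
    refine ⟨?_, ?_, ?_⟩
    · rw [List.pairwise_append]
      refine ⟨hl.pw, List.pairwise_singleton _ _, ?_⟩
      intro a ha c hc
      rw [List.mem_singleton] at hc
      rw [hc]
      exact hbK.2 a ha
    · intro a ha
      rcases List.mem_append.1 ha with h | h
      · exact hl.mem a h
      · rw [List.mem_singleton] at h
        rw [h]
        exact hbK.1
    · intro a ha
      rcases List.mem_append.1 ha with h | h
      · exact hl.good a h
      · rw [List.mem_singleton] at h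
        rw [h]
        exact hbg
  apply hmax _ ⟨l ++ [b], hch, rfl⟩
  refine lt_of_le_not_ge (Submodule.span_mono ?_) ?_
  · intro a ha
    exact List.mem_append_left _ ha
  · intro hle
    apply hb0
    refine hl.indep b (hle (Submodule.subset_span ?_)) hbK.2
    exact List.mem_append_right _ (List.mem_singleton_self b)

end GoAux

open GoAux in
theorem taskGo : TaskGo := by
  refine ⟨?_, fun A _ _ c hc => ess_span c hc⟩
  intro A _ _ hA I hI
  obtain ⟨l, hl, hbot⟩ := exists_chain hA I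
  have hmem : l.sum ∈ I := I.toAddSubmonoid.list_sum_mem hl.mem
  have h1 : ann l.sum = ⊥ := by
    by_contra hne
    apply hI _ hne
    rw [eq_bot_iff, ← hbot]
    rintro x ⟨hx1, hx2⟩
    exact ⟨hx1, hl.kill x (mem_ann.1 hx2)⟩
  have h2 : ∀ x, x * l.sum = 0 → x = 0 := by
    intro x hx
    have : x ∈ ann l.sum := mem_ann.2 hx
    rw [h1, Submodule.mem_bot] at this
    exact this
  refine ⟨l.sum, hmem, ?_, h2⟩
  intro x hx
  apply nonsing hA
  refine EssL.mono ?_ (ess_span l.sum h2)
  rw [Ideal.span_singleton_le_iff_mem]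
  exact mem_ann.2 hx

end Pool.Agent.Helper377_G1
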