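import Pool.Agent.Helper377_G1.Defs

/-!
JOB G1-Tor (MP_112773_al, helper377).

Setting: `τ : Anti A B` (`τ.f (x * y) = τ.f y * τ.f x`, so left ideals of `A` correspond to right ideals of `B`), `A` and `B` left
noetherian, `A` semiprime (hence `B` semiprime).  `rm b : B → B` is right multiplication by `b`, `post (rm b)` acts on `E B M B 1`.
Use `hGo : TaskGo` as a hypothesis (it is proved elsewhere).

PLAIN PROOF.  Let `p : B → M`, `b ↦ b • m` (surjective), `L := ker p`, `h : SES L.subtype p`.  Every `y : E B M B 1` is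
`dr h (hom0 φ)` with `φ : L → B` left `B`-linear (`con3`, `E_proj`, `hom0_surj`).  By `TaskGo` for `B` there is a regular `c₁ ∈ L`.
Let `b := φ c₁`.  The set `{h' : A | τ h'` satisfies `b * τ.f h' ∈ c₁ B}` is a left ideal of `A`; it is
essential: `c₁ B` corresponds to `A c'` with `c' := τ⁻¹ c₁`, and `{h' | h' * τ⁻¹ b ∈ A c'}` is essential because `A c'` is
(second part of `TaskGo` applied to `A`, `c'`, as `x * c' = 0` iff `c₁ * τ x = 0`) and preimages of essential left ideals under right
multiplications are essential (for `J ≠ 0`: either `J u = 0` and `J` is contained in the preimage, or `J u ∩ K ≠ 0`).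
So by `TaskGo` for `A` it contains a regular `c`: there is `y₀ : B` with `b * τ.f c = c₁ * y₀`.
CLAIM: `φ x * τ.f c = x * y₀` for all `x ∈ L`.  The left ideal `{d : B | d * x ∈ B c₁}` is essential (`B c₁` is essential by `TaskGo`), so it
contains a regular `d`: `d * x = e * c₁`.  Then `d * (φ x * τ.f c - x * y₀) = φ (d * x) * τ.f c - d * x * y₀ = e * (b * τ.f c) - e * c₁ * y₀ = 0`.
Hence `rm (τ.f c) ∘ φ` is the restriction of `rm y₀ : B → B` to `L`, so `post (rm (τ.f c)) (dr h (hom0 φ)) = dr h (hom0 (rm (τ.f c) ∘ φ)) =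
dr h (pre L.subtype (hom0 (rm y₀))) = 0` (`post_dr`, `post_hom0`, `pre_hom0`, `dr_pre`).
-/

set_option autoImplicit false

open CategoryTheory

namespace Pool.Agent.Helper377_G1

open Pool.Agent.Helper202_BG Pool.Agent.Helper377_AG

namespace TorAux

theorem ess_comap {R : Type} [Ring R] {K : Ideal R} (hK : EssL K) (u : R) :
    EssL (Submodule.comap (rm u) K) := by
  intro J hJ hcon
  by_cases h0 : ∀ j ∈ J, j * u = 0
  · apply hJ
    rw [eq_bot_iff, ← hcon]
    intro j hj
    refine ⟨?_, hj⟩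
    show rm u j ∈ K
    have : rm u j = j * u := rfl
    rw [this, h0 j hj]
    exact K.zero_mem
  · push Not at h0
    obtain ⟨j, hj, hju⟩ := h0
    have hJ' : Submodule.map (rm u) J ≠ ⊥ := by
      intro h
      apply hju
      have : rm u j ∈ Submodule.map (rm u) J := ⟨j, hj, rfl⟩
      rw [h, Submodule.mem_bot] at this
      exact this
    apply hK (Submodule.map (rm u) J) hJ'
    rw [eq_bot_iff]
    rintro z ⟨hz1, ⟨j', hj', hz2⟩⟩
    have h1 : j' ∈ Submodule.comap (rm u) K ⊓ J := by
      refine ⟨?_, hj'⟩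
      show rm u j' ∈ K
      rw [hz2]
      exact hz1
    rw [hcon, Submodule.mem_bot] at h1
    rw [Submodule.mem_bot, ← hz2, h1, map_zero]

end TorAux

theorem taskTor (hGo : TaskGo) : TaskTor := by
  intro A B _ _ τ _ _ hA M _ _ m hm hL y
  have hB : SemiprimeR B := by
    intro a ha
    have h1 : τ.symm.f a = 0 := by
      apply hA
      intro r
      have h2 := ha (τ.f r)
      have h3 := congrArg τ.symm.f h2
      rw [τ.symm.mul, τ.symm.mul, map_zero] at h3
      have h4 : τ.symm.f (τ.f r) = r := τ.f.symm_apply_apply r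
      rw [h4, ← mul_assoc] at h3
      exact h3
    exact (map_eq_zero_iff τ.symm.f τ.symm.f.injective).1 h1
  set p : B →ₗ[B] M := LinearMap.toSpanSingleton B M m with hp
  have hsurj : Function.Surjective p := by
    rw [← LinearMap.range_eq_top, hp, ← LinearMap.span_singleton_eq_range]
    exact hm
  have h : SES (LinearMap.ker p).subtype p := SES.ofSurj hsurj
  obtain ⟨ζ, hζ⟩ := con3 h y (E_proj _)
  obtain ⟨φ, hφ⟩ := hom0_surj ζ
  -- a regular element of the kernel
  obtain ⟨c₁, hc₁, hreg₁⟩ := hGo.1 B hB (LinearMap.ker p) hL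
  set b : B := φ ⟨c₁, hc₁⟩ with hb
  -- the regular element of `A`
  have hess : EssL (Ideal.span {τ.symm.f c₁}) := by
    apply hGo.2 A
    intro x hx
    have h1 := congrArg τ.f hx
    rw [τ.mul, map_zero] at h1
    have h2 : τ.f (τ.symm.f c₁) = c₁ := τ.f.apply_symm_apply c₁
    rw [h2] at h1
    exact (map_eq_zero_iff τ.f τ.f.injective).1 (hreg₁.1 _ h1)
  obtain ⟨c, hc, hreg⟩ := hGo.1 A hA _ (TorAux.ess_comap hess (τ.symm.f b))
  have hc' : c * τ.symm.f b ∈ Ideal.span {τ.symm.f c₁} := hc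
  obtain ⟨y', hy'⟩ := Submodule.mem_span_singleton.1 hc'
  have hy0 : b * τ.f c = c₁ * τ.f y' := by
    have h1 := congrArg τ.f hy'
    rw [smul_eq_mul, τ.mul, τ.mul] at h1
    have h2 : τ.f (τ.symm.f c₁) = c₁ := τ.f.apply_symm_apply c₁
    have h3 : τ.f (τ.symm.f b) = b := τ.f.apply_symm_apply b
    rw [h2, h3] at h1
    exact h1.symm
  refine ⟨c, hreg, ?_⟩
  have hess₁ : EssL (Ideal.span {c₁}) := hGo.2 B c₁ hreg₁.2
  have claim : ∀ x : LinearMap.ker p, φ x * τ.f c = (x : B) * τ.f y' := by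
    intro x
    obtain ⟨d, hd, hdreg⟩ := hGo.1 B hB _ (TorAux.ess_comap hess₁ (x : B))
    have hd' : d * (x : B) ∈ Ideal.span {c₁} := hd
    obtain ⟨e, he⟩ := Submodule.mem_span_singleton.1 hd'
    rw [smul_eq_mul] at he
    have h1 : d • x = e • (⟨c₁, hc₁⟩ : LinearMap.ker p) := by
      apply Subtype.ext
      show d * (x : B) = e * c₁
      exact he.symm
    have h2 : d * φ x = e * b := by
      have h3 := congrArg φ h1
      rw [map_smul, map_smul, smul_eq_mul, smul_eq_mul] at h3
      exact h3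
    apply sub_eq_zero.1
    apply hdreg.1
    rw [mul_sub, ← mul_assoc, ← mul_assoc, h2, ← he, mul_assoc, mul_assoc, hy0, sub_self]
  have hcomp : (rm (τ.f c)) ∘ₗ φ = (rm (τ.f y')) ∘ₗ (LinearMap.ker p).subtype := by
    ext x
    exact claim x
  rw [← hζ, ← hφ, post_dr, post_hom0, hcomp, ← pre_hom0, dr_pre]

end Pool.Agent.Helper377_G1
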