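import Pool.Agent.Helper377_G1.Defs
import Pool.Agent.Helper377_AG.Main

/-!
Task X0: in a semiprime Hopf algebra `A` over a field `k` the space `Hom_A(k, A)` is
finite-dimensional.
-/

set_option autoImplicit false

open CategoryTheory

namespace Pool.Agent.Helper377_G1

open Pool.Agent.Helper202_BG Pool.Agent.Helper377_AG

namespace X0

variable {k A : Type} [Field k] [Ring A] [HopfAlgebra k A]

/-- left integrals -/
def Int (k : Type) {A : Type} [Field k] [Ring A] [HopfAlgebra k A] (x : A) : Prop :=
  ∀ h : A, h * x = eps k A h • x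

theorem int_mul {x : A} (hx : Int k x) (a : A) : Int k (x * a) := by
  intro h
  rw [← mul_assoc, hx h, smul_mul_assoc]

theorem exists_norm (hA : SemiprimeR A) {x : A} (hx : Int k x) (hx0 : x ≠ 0) :
    ∃ e : A, Int k e ∧ eps k A e = 1 := by
  by_cases h : ∃ e : A, Int k e ∧ eps k A e ≠ 0
  · obtain ⟨e, he, he0⟩ := h
    refine ⟨(eps k A e)⁻¹ • e, ?_, ?_⟩
    · intro h
      rw [mul_smul_comm, he h, smul_comm]
    · have : eps k A ((eps k A e)⁻¹ • e) = (eps k A e)⁻¹ * eps k A e := by
        change (Bialgebra.counitAlgHom k A) (_ • e) = _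
        rw [map_smul, smul_eq_mul]
        rfl
      rw [this, inv_mul_cancel₀ he0]
  · push Not at h
    exfalso
    apply hx0
    apply hA
    intro r
    have h1 : eps k A x = 0 := h x hx
    rw [hx (x * r), map_mul, h1, zero_mul, zero_smul]

theorem int_right (hA : SemiprimeR A) {e : A} (he : Int k e) (h : A) :
    e * h = eps k A h • e := by
  have key : ∀ h : A, eps k A h = 0 → e * h = 0 := by
    intro h h0
    apply hA
    intro r
    have h1 : h * r * e = (0 : A) := by
      rw [he (h * r), map_mul, h0, zero_mul, zero_smul]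
    calc e * h * r * (e * h) = e * (h * r * e) * h := by noncomm_ring
      _ = 0 := by rw [h1]; simp
  have h2 : eps k A (h - algebraMap k A (eps k A h)) = 0 := by
    rw [map_sub]
    have : eps k A (algebraMap k A (eps k A h)) = eps k A h := by
      change (Bialgebra.counitAlgHom k A) (algebraMap k A _) = _
      rw [AlgHom.commutes]
      rfl
    rw [this, sub_self]
  have h3 := key _ h2
  rw [mul_sub, sub_eq_zero] at h3
  rw [h3, ← Algebra.commutes, Algebra.smul_def]

theorem int_one (hA : SemiprimeR A) {e : A} (he : Int k e) (he1 : eps k A e = 1) {x : A}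
    (hx : Int k x) : x = eps k A x • e := by
  have h1 := hx e
  rw [he1, one_smul, int_right hA he] at h1
  exact h1.symm

theorem int_of_hom (g : Tr (eps k A) →ₗ[A] A) : Int k (g (Tr.mk (eps k A) 1)) := by
  intro h
  rw [← smul_eq_mul, ← map_smul, Tr.smul_mk, mul_one]
  have h1 : Tr.mk (eps k A) (eps k A h) =
      (algebraMap k A (eps k A h)) • Tr.mk (eps k A) 1 := by
    rw [Tr.smul_mk, mul_one]
    congr 1
    symm
    change (Bialgebra.counitAlgHom k A) (algebraMap k A _) = _
    rw [AlgHom.commutes]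
    rfl
  rw [h1, map_smul, smul_eq_mul, ← Algebra.smul_def]

theorem hom_ext1 {g g' : Tr (eps k A) →ₗ[A] A}
    (h : g (Tr.mk (eps k A) 1) = g' (Tr.mk (eps k A) 1)) : g = g' := by
  apply LinearMap.ext
  intro x
  have h1 : x = (algebraMap k A (Tr.val (eps k A) x)) • Tr.mk (eps k A) 1 := by
    rw [Tr.smul_mk, mul_one]
    have : eps k A (algebraMap k A (Tr.val (eps k A) x)) = Tr.val (eps k A) x := by
      change (Bialgebra.counitAlgHom k A) (algebraMap k A _) = _
      rw [AlgHom.commutes]
      rfl
    rw [this, Tr.mk_val]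
  rw [h1, map_smul, map_smul, h]

end X0

theorem taskX0 : TaskX0 := by
  intro k A _ _ _ hA
  by_cases h : ∃ ξ : E A (Tr (eps k A)) A 0, ξ ≠ 0
  · obtain ⟨ξ, hξ⟩ := h
    obtain ⟨g, rfl⟩ := hom0_surj ξ
    have hg : g ≠ 0 := fun h => hξ (hom0_eq_zero.2 h)
    have hx := X0.int_of_hom g
    have hx0 : g (Tr.mk (eps k A) 1) ≠ 0 := by
      intro h0
      apply hg
      apply X0.hom_ext1
      rw [h0, LinearMap.zero_apply]
    obtain ⟨e, he, he1⟩ := X0.exists_norm hA hx hx0
    -- every element is a multiple of `hom0 g`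
    have hc : ∀ η : E A (Tr (eps k A)) A 0, ∃ c : k, c • hom0 g = η := by
      intro η
      obtain ⟨g', rfl⟩ := hom0_surj η
      have hx' := X0.int_of_hom g'
      have e1 := X0.int_one hA he he1 hx
      have e2 := X0.int_one hA he he1 hx'
      have hne : eps k A (g (Tr.mk (eps k A) 1)) ≠ 0 := by
        intro h0
        rw [h0, zero_smul] at e1
        exact hx0 e1
      refine ⟨eps k A (g' (Tr.mk (eps k A) 1)) * (eps k A (g (Tr.mk (eps k A) 1)))⁻¹, ?_⟩
      rw [smul_eq_post, post_hom0]
      congr 1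
      apply X0.hom_ext1
      rw [LinearMap.comp_apply, LinearMap.toSpanSingleton_apply, smul_eq_mul,
        ← Algebra.commutes, ← Algebra.smul_def]
      generalize eps k A (g (Tr.mk (eps k A) 1)) = s at e1 hne ⊢
      generalize eps k A (g' (Tr.mk (eps k A) 1)) = t at e2 ⊢
      rw [e1, e2, smul_smul, mul_assoc, inv_mul_cancel₀ hne, mul_one]
    refine ⟨⟨{hom0 g}, ?_⟩⟩
    rw [eq_top_iff]
    intro η _
    obtain ⟨c, rfl⟩ := hc η
    exact Submodule.smul_mem _ _ (Submodule.subset_span (Finset.mem_coe.2 (Finset.mem_singleton_self _)))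
  · push Not at h
    have : Subsingleton (E A (Tr (eps k A)) A 0) := ⟨fun x y => by rw [h x, h y]⟩
    infer_instance

end Pool.Agent.Helper377_G1
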