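import Pool.Agent.Helper377_G1.Simple
import Pool.Agent.Helper377_G1.TaskGo
import Pool.Agent.Helper377_G1.TaskTor
import Pool.Agent.Helper377_G1.TaskX0

/-!
The lowest Ext group of a noetherian Hopf algebra: the main arguments.
-/

set_option autoImplicit false

open CategoryTheory
open scoped TensorProduct

namespace Pool.Agent.Helper377_G1

open Pool.Agent.Helper202_BG Pool.Agent.Helper377_AG

section pair
variable {k A B : Type} [Field k] [Ring A] [HopfAlgebra k A] [Ring B] [HopfAlgebra k B]
variable (τ : Anti A B) (hτ : ∀ (c : k) (a : A), τ.f (c • a) = c • τ.f a)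

include hτ in
/-- finite injective dimension on one side -/
theorem half (hA : IsNoetherianRing A) (n : ℕ)
    (hY : ∀ i, i < n → Subsingleton (E B (Tr (eps k B)) B i))
    (V : Type) [AddCommGroup V] [Module A V] [Module.Finite A V]
    (hV : ∀ i, i < n → Subsingleton (E A V A i))
    (φ : V →ₗ[A] EM τ.symm (Tr (eps k B)) n) (hφ : φ ≠ 0) : IDLT A A (n + 1) := by
  let φ' : V →+ E B (Tr (eps k B)) B n :=
    { toFun := fun v => ofEM τ.symm _ n (φ v)
      map_zero' := by rw [map_zero]; rfl
      map_add' := fun u v => by rw [map_add, ofEM_add] }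
  obtain ⟨Q, hQ, f, hf⟩ := taskP_of taskQ A B τ n V (Tr (eps k B)) hV hY φ'
    (fun a v => by
      change ofEM τ.symm _ n (φ (a • v)) = post (rm (τ.f a)) (ofEM τ.symm _ n (φ v))
      rw [map_smul, ofEM_smul]
      rfl)
    (by
      intro h
      apply hφ
      ext v
      exact DFunLike.congr_fun h v)
  let _ : Module k Q := ModuleCat.moduleOfAlgebraModule Q
  have _ : IsScalarTower k B Q := ModuleCat.isScalarTower_of_algebra_moduleCat Q
  have hr : LinearMap.range f ≠ ⊥ := by
    rwa [Ne, LinearMap.range_eq_bot]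
  have hfin : FiniteDimensional k (LinearMap.range f) := by
    have hTr : FiniteDimensional k (Tr (eps k B)) :=
      inferInstanceAs (FiniteDimensional k k)
    let g : Tr (eps k B) →ₗ[k] LinearMap.range f := (f.rangeRestrict).restrictScalars k
    exact Module.Finite.of_surjective g f.surjective_rangeRestrict
  exact taskI k A B τ hτ hA n (taskT k B n Q hQ (LinearMap.range f) hr hfin)

include hτ in
/-- the double dual is at most one-dimensional -/
theorem one_dim [IsNoetherianRing A] (n : ℕ)
    (hX : ∀ i, i < n → Subsingleton (E A (Tr (eps k A)) A i)) (hB : IDLT B B (n + 1)) :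
    ∃ x₁ : E B (EM τ (Tr (eps k A)) n) B n, ∀ y, ∃ c : k, y = c • x₁ := by
  obtain ⟨Q, hQ, ι, hι, hι', x₀, hx₀⟩ := stepQ τ hτ n hX
  let i : EM τ (Tr (eps k A)) n →ₗ[B] Q :=
    { toFun := fun u => ι (ofEM τ _ n u)
      map_add' := fun u v => by rw [ofEM_add, map_add]
      map_smul' := fun b u => by
        rw [ofEM_smul, hι', Anti.f_symm_apply, RingHom.id_apply] }
  have hi : Function.Injective i := fun u v h => hι h
  have hs : SES i (LinearMap.range i).mkQ := SES.ofInj hi
  refine ⟨pre i x₀, fun y => ?_⟩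
  obtain ⟨z, hz⟩ := con1 hs y (Abelian.Ext.eq_zero_of_hasInjectiveDimensionLT _ (n + 1) le_rfl)
  obtain ⟨c, hc⟩ := hx₀ z
  exact ⟨c, by rw [← hz, hc _ i fun u => ⟨ofEM τ _ n u, rfl⟩]⟩

noncomputable instance instModK {M : Type} [AddCommGroup M] [Module A M] {n : ℕ} :
    Module k (EM τ M n) := inferInstanceAs (Module k (E A M A n))

omit [HopfAlgebra k B] in
theorem EM_smul_k {M : Type} [AddCommGroup M] [Module A M] {n : ℕ} (c : k) (u : EM τ M n) :
    ofEM τ M n (c • u) = c • ofEM τ M n u := rfl

include hτ in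
theorem EM_tower {M : Type} [AddCommGroup M] [Module A M] {n : ℕ} :
    IsScalarTower k B (EM τ M n) := by
  refine ⟨fun c b u => ?_⟩
  change ofEM τ M n ((c • b) • u) = ofEM τ M n (c • b • u)
  rw [ofEM_smul, EM_smul_k, ofEM_smul, anti_symm_smul τ hτ, smul_eq_post, ← post_comp]
  congr 1
  ext
  simp [Algebra.smul_def, Algebra.commutes]

end pair

section semiprime

theorem semiprime_anti {A B : Type} [Ring A] [Ring B] (τ : Anti A B) (h : SemiprimeR A) :
    SemiprimeR B := by
  intro b hb
  have h1 : τ.symm.f b = 0 := by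
    apply h
    intro r
    have h2 := congrArg τ.symm.f (hb (τ.f r))
    rw [τ.symm.mul, τ.symm.mul, map_zero] at h2
    have h3 : τ.symm.f (τ.f r) = r := τ.f.symm_apply_apply r
    rw [h3, ← mul_assoc] at h2
    exact h2
  have h2 := congrArg τ.f h1
  rw [map_zero] at h2
  have h3 : τ.f (τ.symm.f b) = b := τ.f.apply_symm_apply b
  rwa [h3] at h2

end semiprime

section tors
variable {k A B : Type} [Field k] [Ring A] [HopfAlgebra k A] [Ring B] [HopfAlgebra k B]
variable (τ : Anti A B) (hτ : ∀ (c : k) (a : A), τ.f (c • a) = c • τ.f a)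

/-- The kernel of the counit is essential if there is no integral. -/
theorem ker_ess (hY : Subsingleton (E B (Tr (eps k B)) B 0)) :
    EssL (LinearMap.ker (LinearMap.toSpanSingleton B (Tr (eps k B)) (Tr.mk (eps k B) 1))) := by
  intro J hJ hbot
  obtain ⟨j, hj, hj0⟩ := Submodule.exists_mem_ne_zero_of_ne_bot hJ
  have hker : ∀ b : B, eps k B b = 0 →
      b ∈ LinearMap.ker (LinearMap.toSpanSingleton B (Tr (eps k B)) (Tr.mk (eps k B) 1)) := by
    intro b hb
    rw [LinearMap.mem_ker, LinearMap.toSpanSingleton_apply, Tr.smul_mk, hb, zero_mul]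
    rfl
  have hb : ∀ b : B, b * j = algebraMap k B (eps k B b) * j := by
    intro b
    have h1 : b * j - algebraMap k B (eps k B b) * j ∈ J :=
      J.sub_mem (J.mul_mem_left b hj) (J.mul_mem_left _ hj)
    have h2 : eps k B (b * j - algebraMap k B (eps k B b) * j) = 0 := by
      have hc : eps k B (algebraMap k B (eps k B b)) = eps k B b :=
        (Bialgebra.counitAlgHom k B).commutes _
      rw [map_sub, map_mul, map_mul, hc, sub_self]
    have h3 : b * j - algebraMap k B (eps k B b) * j ∈ (⊥ : Ideal B) := by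
      rw [← hbot]
      exact ⟨hker _ h2, h1⟩
    rwa [Submodule.mem_bot, sub_eq_zero] at h3
  let f : Tr (eps k B) →ₗ[B] B :=
    { toFun := fun x => algebraMap k B (Tr.val (eps k B) x) * j
      map_add' := fun x y => by
        change algebraMap k B (Tr.val (eps k B) x + Tr.val (eps k B) y) * j = _
        rw [map_add, add_mul]
      map_smul' := fun b x => by
        rw [RingHom.id_apply, smul_eq_mul]
        change algebraMap k B (eps k B b * Tr.val (eps k B) x) * j = _
        rw [map_mul, ← Algebra.commutes, mul_assoc]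
        rw [← hb, ← mul_assoc, ← mul_assoc, Algebra.commutes] }
  have hf : f (Tr.mk (eps k B) 1) = j := by
    change algebraMap k B 1 * j = j
    rw [map_one, one_mul]
  have h0 : f = 0 := hom0_eq_zero.1 (hY.elim _ _)
  apply hj0
  rw [← hf, h0, LinearMap.zero_apply]

/-- torsion of `Ext^1` -/
theorem tors [IsNoetherianRing A] [IsNoetherianRing B] (hs : SemiprimeR A)
    (hY : Subsingleton (E B (Tr (eps k B)) B 0)) (y : EM τ.symm (Tr (eps k B)) 1) :
    ∃ c : A, Reg c ∧ c • y = 0 := by
  have hspan : Submodule.span B {Tr.mk (eps k B) 1} = ⊤ := by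
    rw [eq_top_iff]
    rintro x -
    rw [Submodule.mem_span_singleton]
    refine ⟨algebraMap k B (Tr.val (eps k B) x), ?_⟩
    have hc : eps k B (algebraMap k B (Tr.val (eps k B) x)) = Tr.val (eps k B) x :=
      (Bialgebra.counitAlgHom k B).commutes _
    rw [Tr.smul_mk, hc, mul_one, Tr.mk_val]
  obtain ⟨c, hc, hc'⟩ := taskTor taskGo A B τ hs (Tr (eps k B)) (Tr.mk (eps k B) 1) hspan
    (ker_ess hY) (ofEM τ.symm _ 1 y)
  exact ⟨c, hc, hc'⟩

/-- homomorphisms from torsion modules to the ring vanish -/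
theorem tors_hom {V : Type} [AddCommGroup V] [Module A V]
    (h : ∀ v : V, ∃ c : A, (∀ x, c * x = 0 → x = 0) ∧ c • v = 0) : Subsingleton (E A V A 0) := by
  have key : ∀ ξ : E A V A 0, ξ = 0 := by
    intro ξ
    obtain ⟨f, rfl⟩ := hom0_surj ξ
    rw [hom0_eq_zero]
    ext v
    obtain ⟨c, hc, hcv⟩ := h v
    apply hc
    rw [← smul_eq_mul, ← map_smul, hcv, map_zero]
  exact ⟨fun a b => by rw [key a, key b]⟩

include hτ in
/-- finite injective dimension, semiprime case -/
theorem half_tors (hA : IsNoetherianRing A) (hB : IsNoetherianRing B) (hs : SemiprimeR A)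
    (hY : Subsingleton (E B (Tr (eps k B)) B 0))
    (hY1 : ¬ Subsingleton (E B (Tr (eps k B)) B 1)) : IDLT A A 2 := by
  rw [not_subsingleton_iff_nontrivial] at hY1
  obtain ⟨y, hy⟩ := exists_ne (0 : E B (Tr (eps k B)) B 1)
  let y' : EM τ.symm (Tr (eps k B)) 1 := y
  let V : Submodule A (EM τ.symm (Tr (eps k B)) 1) := Submodule.span A {y'}
  have hfin : Module.Finite A V := by
    refine Module.Finite.iff_fg.2 ?_
    exact Submodule.fg_span_singleton _
  refine half τ hτ hA 1 (fun i hi => ?_) V (fun i hi => ?_) V.subtype ?_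
  · have : i = 0 := by omega
    subst this
    exact hY
  · have : i = 0 := by omega
    subst this
    refine tors_hom fun v => ?_
    obtain ⟨c, hc, hcv⟩ := tors τ hs hY (v : EM τ.symm (Tr (eps k B)) 1)
    exact ⟨c, hc.1, Subtype.ext hcv⟩
  · intro h
    apply hy
    have h1 : y' ∈ V := Submodule.mem_span_singleton_self y'
    have h2 := LinearMap.congr_fun h ⟨y', h1⟩
    exact h2

include hτ in
/-- integrals in infinite-dimensional situation -/
theorem X0_zero (hA : IsNoetherianRing A) (hB : IsNoetherianRing B) (hs : SemiprimeR A)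
    (h1 : ¬ Subsingleton (E A (Tr (eps k A)) A 1)) :
    Subsingleton (E A (Tr (eps k A)) A 0) := by
  by_contra hcon
  have hfin := taskX0 k A hs
  have hnt : Nontrivial (E A (Tr (eps k A)) A 0) := not_subsingleton_iff_nontrivial.1 hcon
  obtain ⟨h2, -⟩ := main_pair τ hτ hA hB 0 (fun i hi => absurd hi (Nat.not_lt_zero i)) ⊤
    top_ne_bot (by infer_instance) (fun _ _ _ => Submodule.mem_top)
  exact h1 (HasInjectiveDimensionLT.subsingleton (ModuleCat.of A A) 1 1 le_rfl
    (ModuleCat.of A (Tr (eps k A))))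

end tors

end Pool.Agent.Helper377_G1
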