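import Pool.Agent.Helper377_G1.Main
import Pool.Agent.Helper202_BG.P3h

/-!
Semiprime noetherian Hopf algebras with `Ext^1_H(k, H) ≠ 0`.
-/

set_option autoImplicit false

open CategoryTheory
open scoped TensorProduct

namespace Pool.Agent.Helper377_G1

open Pool.Agent.Helper202_BG Pool.Agent.Helper377_AG

/-- A prime ideal which is not essential as a left ideal is a minimal prime ideal. -/
theorem minimal_of_not_ess {B : Type} [Ring B] {P : Ideal B} (hP : PrimeI P) (h : ¬ EssL P)
    {Q : Ideal B} (hQ : PrimeI Q) (hle : Q ≤ P) : Q = P := by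
  unfold EssL at h
  push Not at h
  obtain ⟨J, hJ, hPJ⟩ := h
  refine le_antisymm hle fun x hx => ?_
  obtain ⟨j, hj, hj0⟩ := Submodule.exists_mem_ne_zero_of_ne_bot hJ
  have hmem : ∀ y ∈ P, y ∈ J → y = 0 := by
    intro y hy hy'
    have : y ∈ P ⊓ J := ⟨hy, hy'⟩
    rw [hPJ] at this
    exact this
  have hPt : P.IsTwoSided := hP.1
  have h1 : ∀ r, x * r * j ∈ Q := by
    intro r
    have h2 : x * r * j ∈ P := by
      rw [mul_assoc]
      exact hPt.mul_mem_of_left _ hx
    rw [hmem _ h2 (J.mul_mem_left _ hj)]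
    exact Q.zero_mem
  rcases hQ.2.2 x j h1 with h2 | h2
  · exact h2
  · exact absurd (hmem j (hle h2) hj) hj0

theorem primeM_simple {B X : Type} [Ring B] [AddCommGroup X] [Module B X]
    (h : IsSimpleModule B X) : PrimeM B X := by
  refine ⟨IsSimpleModule.nontrivial B X, fun a m hm ha x => ?_⟩
  have h1 : Submodule.span B {m} = ⊤ := by
    rcases eq_bot_or_eq_top (Submodule.span B {m}) with h2 | h2
    · rw [Submodule.span_singleton_eq_bot] at h2
      exact absurd h2 hm
    · exact h2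
  have h2 : x ∈ Submodule.span B {m} := by rw [h1]; trivial
  obtain ⟨r, rfl⟩ := Submodule.mem_span_singleton.1 h2
  exact ha r

/-- transport of ideals along anti-isomorphisms -/
def tid {A B : Type} [Ring A] [Ring B] (τ : Anti A B) (P : Ideal A) (hP : P.IsTwoSided) :
    Ideal B where
  carrier := {b | τ.symm.f b ∈ P}
  add_mem' := by
    intro x y hx hy
    change τ.symm.f (x + y) ∈ P
    rw [map_add]
    exact P.add_mem hx hy
  zero_mem' := by
    change τ.symm.f 0 ∈ P
    rw [map_zero]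
    exact P.zero_mem
  smul_mem' := by
    intro c x hx
    change τ.symm.f (c * x) ∈ P
    rw [τ.symm.mul]
    exact hP.mul_mem_of_left _ hx

theorem mem_tid {A B : Type} [Ring A] [Ring B] (τ : Anti A B) (P : Ideal A) (hP : P.IsTwoSided)
    (b : B) : b ∈ tid τ P hP ↔ τ.symm.f b ∈ P := Iff.rfl

theorem tid_prime {A B : Type} [Ring A] [Ring B] (τ : Anti A B) (P : Ideal A) (hP : PrimeI P) :
    PrimeI (tid τ P hP.1) := by
  refine ⟨⟨fun {a} b ha => ?_⟩, ?_, ?_⟩
  · rw [mem_tid] at ha ⊢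
    rw [τ.symm.mul]
    exact P.mul_mem_left _ ha
  · intro h
    apply hP.2.1
    rw [Ideal.eq_top_iff_one]
    have h1 : (1 : B) ∈ tid τ P hP.1 := by rw [h]; trivial
    rw [mem_tid, τ.symm.one] at h1
    exact h1
  · intro a b h
    have h1 := hP.2.2 (τ.symm.f b) (τ.symm.f a) (fun r => by
      have h2 := h (τ.f r)
      rw [mem_tid, τ.symm.mul, τ.symm.mul] at h2
      have h3 : τ.symm.f (τ.f r) = r := τ.f.symm_apply_apply r
      rw [h3, ← mul_assoc] at h2
      exact h2)
    rw [mem_tid, mem_tid]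
    exact h1.symm

section pair
variable {k A B : Type} [Field k] [Ring A] [HopfAlgebra k A] [Ring B] [HopfAlgebra k B]
variable (τ : Anti A B) (hτ : ∀ (c : k) (a : A), τ.f (c • a) = c • τ.f a)

include hτ in
/-- one half of the main theorem -/
theorem dim_one_half (hArt : TaskArt) (hDen : TaskDen) (hA : IsNoetherianRing A)
    (hB : IsNoetherianRing B) (hs : SemiprimeR A)
    (h1 : ¬ Subsingleton (E A (Tr (eps k A)) A 1)) :
    IDLT A A 2 ∧ IDLT B B 2 ∧ Subsingleton (E A (Tr (eps k A)) A 0) ∧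
      IsSimpleModule B (EM τ (Tr (eps k A)) 1) ∧
      (∀ θ : EM τ (Tr (eps k A)) 1 →ₗ[B] EM τ (Tr (eps k A)) 1, ∃ c : k, ∀ x, θ x = c • x) ∧
      (Module.Finite k (E A (Tr (eps k A)) A 1) ∨
        ∀ Q : Ideal B, PrimeI Q → Q ≤ Module.annihilator B (EM τ (Tr (eps k A)) 1) →
          Q = Module.annihilator B (EM τ (Tr (eps k A)) 1)) := by
  have hsB := semiprime_anti τ hs
  have hX0 := X0_zero τ hτ hA hB hs h1
  have hY0 := (taskS k A B τ hτ hA hB 0).1 hX0
  have hY1 : ¬ Subsingleton (E B (Tr (eps k B)) B 1) := fun h =>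
    h1 ((taskS k A B τ hτ hA hB 1).2 h)
  have hIA := half_tors τ hτ hA hB hs hY0 hY1
  have hIB := half_tors τ.symm (anti_symm_smul τ hτ) hB hA hsB hX0 h1
  have htor : ∀ x : EM τ (Tr (eps k A)) 1, ∃ c : B, Reg c ∧ c • x = 0 := by
    intro x
    exact tors τ.symm hsB hX0 x
  have hnt : Nontrivial (EM τ (Tr (eps k A)) 1) := not_subsingleton_iff_nontrivial.1 h1
  have hfinA : Module.Finite A (Tr (eps k A)) := by
    have : Module.Finite k (Tr (eps k A)) := inferInstanceAs (Module.Finite k k)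
    exact Module.Finite.of_restrictScalars_finite k A _
  have hnoe : IsNoetherian B (EM τ (Tr (eps k A)) 1) := EM_noeth τ (Tr (eps k A)) 0 (by omega)
  have hst : IsScalarTower k B (EM τ (Tr (eps k A)) 1) := EM_tower τ hτ
  obtain ⟨x₁, hx₁⟩ := one_dim τ hτ 1 (fun i hi => by
    have : i = 0 := by omega
    subst this
    exact hX0) hIB
  obtain ⟨hsim, hend⟩ := simple_of (k := k) τ 0 hIA hIB (EM τ (Tr (eps k A)) 1) (by
    intro N i hi
    have : i = 0 := by omega
    subst this
    refine tors_hom fun v => ?_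
    obtain ⟨c, hc, hcv⟩ := htor v
    exact ⟨c, hc.1, Subtype.ext hcv⟩) x₁ hx₁
  refine ⟨hIA, hIB, hX0, hsim, hend, ?_⟩
  have hP : PrimeI (Module.annihilator B (EM τ (Tr (eps k A)) 1)) :=
    primeI_ann _ (primeM_simple hsim)
  by_cases hess : EssL (Module.annihilator B (EM τ (Tr (eps k A)) 1))
  · left
    obtain ⟨c, hcP, hc⟩ := taskGo.1 B hsB _ hess
    have hart : IsArtinian B (B ⧸ Module.annihilator B (EM τ (Tr (eps k A)) 1)) := by
      refine hArt A B τ hIA hIB _ fun x => ⟨c, hc.1, ?_⟩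
      obtain ⟨b, rfl⟩ := Submodule.mkQ_surjective _ x
      rw [← map_smul, Submodule.mkQ_apply, Submodule.Quotient.mk_eq_zero, smul_eq_mul]
      exact hP.1.mul_mem_of_left _ hcP
    exact hDen k B (EM τ (Tr (eps k A)) 1) hsim hend hart
  · right
    intro Q hQ hle
    exact minimal_of_not_ess hP hess hQ hle

end pair

end Pool.Agent.Helper377_G1
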