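import Pool.Agent.Helper377_G1.Defs2

/-!
The lowest group `Ext^n_A(k, A)`: finite injective dimension and simplicity.
-/

set_option autoImplicit false

open CategoryTheory
open scoped TensorProduct

namespace Pool.Agent.Helper377_G1

open Pool.Agent.Helper202_BG Pool.Agent.Helper377_AG

section gen
variable {B : Type} [Ring B] {X : Type} [AddCommGroup X] [Module B X]

theorem sub_of_equiv {Y : Type} [AddCommGroup Y] [Module B Y] (e : X ≃ₗ[B] Y) {V : Type}
    [AddCommGroup V] [Module B V] (n : ℕ) (h : Subsingleton (E B X V n)) :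
    Subsingleton (E B Y V n) := by
  have key : ∀ ξ : E B Y V n, ξ = 0 := by
    intro ξ
    have h1 : pre e.symm.toLinearMap (pre e.toLinearMap ξ) = ξ := by
      rw [← pre_comp]
      have : e.toLinearMap ∘ₗ e.symm.toLinearMap = LinearMap.id := by ext x; simp
      rw [this, pre_id]
    rw [← h1, h.elim (pre e.toLinearMap ξ) 0, pre_zero]
  exact ⟨fun a b => by rw [key a, key b]⟩

/-- quotients of modules of large grade -/
theorem grade_quot {n : ℕ} (hg : ∀ (N : Submodule B X) (i : ℕ), i < n → Subsingleton (E B N B i))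
    (N : Submodule B X) (i : ℕ) (hi : i < n) : Subsingleton (E B (X ⧸ N) B i) := by
  have hX : Subsingleton (E B X B i) :=
    sub_of_equiv (Submodule.topEquiv : (⊤ : Submodule B X) ≃ₗ[B] X) i (hg ⊤ i hi)
  have hs := SES.mkQ N
  have key : ∀ ξ : E B (X ⧸ N) B i, ξ = 0 := by
    intro ξ
    have h1 : pre N.mkQ ξ = 0 := hX.elim _ _
    cases i with
    | zero =>
      obtain ⟨f, rfl⟩ := hom0_surj ξ
      rw [pre_hom0, hom0_eq_zero] at h1
      rw [hom0_eq_zero]
      ext x
      exact LinearMap.congr_fun h1 x
    | succ m =>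
      obtain ⟨ζ, hζ⟩ := con3 hs ξ h1
      have := hg N m (by omega)
      rw [← hζ, this.elim ζ 0, dr_zero]
  exact ⟨fun a b => by rw [key a, key b]⟩

end gen

section lin
variable {k B : Type} [Field k] [Ring B] [Algebra k B] {X Y : Type} [AddCommGroup X] [Module B X]
  [AddCommGroup Y] [Module B Y]

theorem smul_pre {n : ℕ} (f : X →ₗ[B] Y) (c : k) (g : X →ₗ[B] Y)
    (hg : ∀ x, g x = algebraMap k B c • f x)
    {V : Type} [AddCommGroup V] [Module B V] (ξ : E B Y V n) : pre g ξ = c • pre f ξ := by
  have h1 : ModuleCat.ofHom g = c • ModuleCat.ofHom f := by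
    apply ModuleCat.hom_ext
    ext x
    exact hg x
  rw [pre, pre, h1, Abelian.Ext.mk₀_smul, Abelian.Ext.smul_comp]

end lin

/-- A module of large grade whose top Ext group is cyclic over the field is simple. -/
theorem simple_of {k A B : Type} [Field k] [Ring A] [Ring B] [Algebra k B] (τ : Anti A B)
    [IsNoetherianRing A] [IsNoetherianRing B] (m : ℕ) (hA : IDLT A A (m + 2))
    (hB : IDLT B B (m + 2)) (X : Type) [AddCommGroup X] [Module B X] [Module k X]
    [IsScalarTower k B X] [IsNoetherian B X] [Nontrivial X]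
    (hg : ∀ (N : Submodule B X) (i : ℕ), i < m + 1 → Subsingleton (E B N B i))
    (x₁ : E B X B (m + 1)) (hx₁ : ∀ y, ∃ c : k, y = c • x₁) :
    IsSimpleModule B X ∧ ∀ θ : X →ₗ[B] X, ∃ c : k, ∀ x, θ x = c • x := by
  have hvan : ∀ (M : Type) [AddCommGroup M] [Module B M] [Module.Finite B M],
      (∀ i, i < m + 1 → Subsingleton (E B M B i)) → Subsingleton (E B M B (m + 1)) →
      Subsingleton M := by
    intro M _ _ _ h1 h2
    refine taskNZ A B τ (m + 1) hA M fun i => ?_
    rcases lt_trichotomy i (m + 1) with h | h | h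
    · exact h1 i h
    · rw [h]; exact h2
    · exact HasInjectiveDimensionLT.subsingleton (ModuleCat.of B B) (m + 2) i (by omega) _
  have hdich : ∀ N : Submodule B X, N = ⊥ ∨ N = ⊤ := by
    intro N
    have hs := SES.mkQ N
    by_cases hq : Subsingleton (E B (X ⧸ N) B (m + 1))
    · right
      have := hvan (X ⧸ N) (fun i hi => grade_quot hg N i hi) hq
      exact Submodule.Quotient.subsingleton_iff.1 this
    · left
      rw [not_subsingleton_iff_nontrivial] at hq
      obtain ⟨u, hu⟩ := exists_ne (0 : E B (X ⧸ N) B (m + 1))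
      obtain ⟨c, hc⟩ := hx₁ (pre N.mkQ u)
      have hc0 : c ≠ 0 := by
        rintro rfl
        rw [zero_smul] at hc
        obtain ⟨ζ, hζ⟩ := con3 hs u hc
        have := hg N m (by omega)
        apply hu
        rw [← hζ, this.elim ζ 0, dr_zero]
      have hN : Subsingleton (E B N B (m + 1)) := by
        have key : ∀ w : E B N B (m + 1), w = 0 := by
          intro w
          have h0 : dr hs w = 0 :=
            (HasInjectiveDimensionLT.subsingleton (ModuleCat.of B B) (m + 2) (m + 1 + 1)
              (by omega) (ModuleCat.of B (X ⧸ N))).elim _ _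
          obtain ⟨y, hy⟩ := con1 hs w h0
          obtain ⟨d, hd⟩ := hx₁ y
          have h1 : y = (d * c⁻¹) • pre N.mkQ u := by
            rw [hc, smul_smul, mul_assoc, inv_mul_cancel₀ hc0, mul_one, hd]
          have h2 : pre N.subtype (pre N.mkQ u) = 0 := by
            rw [← pre_comp]
            have : N.mkQ ∘ₗ N.subtype = 0 := hs.comp_zero
            rw [this, zero_pre]
          have h3 : pre N.subtype ((d * c⁻¹) • pre N.mkQ u) =
              (d * c⁻¹) • pre N.subtype (pre N.mkQ u) := by
            simp [pre]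
          rw [← hy, h1, h3, h2, smul_zero]
        exact ⟨fun a b => by rw [key a, key b]⟩
      have := hvan N (fun i hi => hg N i hi) hN
      exact (Submodule.subsingleton_iff_eq_bot).1 this
  have hsimple : IsSimpleModule B X := by
    exact { exists_pair_ne := ⟨⊥, ⊤, bot_ne_top⟩, eq_bot_or_eq_top := hdich }
  refine ⟨hsimple, ?_⟩
  have hx0 : x₁ ≠ 0 := by
    intro h0
    have hfin : Module.Finite B X := Module.IsNoetherian.finite B X
    have h1 : Subsingleton (E B X B (m + 1)) := by
      have key : ∀ w : E B X B (m + 1), w = 0 := by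
        intro w
        obtain ⟨c, hc⟩ := hx₁ w
        rw [hc, h0, smul_zero]
      exact ⟨fun a b => by rw [key a, key b]⟩
    have h2 := hvan X (fun i hi =>
      sub_of_equiv (Submodule.topEquiv : (⊤ : Submodule B X) ≃ₗ[B] X) i (hg ⊤ i hi)) h1
    exact not_subsingleton X h2
  intro θ
  obtain ⟨c, hc⟩ := hx₁ (pre θ x₁)
  refine ⟨c, ?_⟩
  let sc : X →ₗ[B] X :=
    { toFun := fun x => algebraMap k B c • x
      map_add' := fun x y => smul_add _ _ _
      map_smul' := fun b x => by
        rw [RingHom.id_apply, ← mul_smul, ← mul_smul, Algebra.commutes] }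
  have h1 : pre (θ - sc) x₁ = 0 := by
    have h2 : θ = (θ - sc) + sc := by abel
    have h3 : pre θ x₁ = pre (θ - sc) x₁ + pre sc x₁ := by
      conv_lhs => rw [h2]
      exact add_pre _ _ _
    have h4 : pre sc x₁ = c • x₁ := by
      rw [smul_pre (k := k) LinearMap.id c sc (fun x => rfl), pre_id]
    rw [h4, hc] at h3
    exact right_eq_add.1 h3
  have h5 : θ - sc = 0 := by
    rcases LinearMap.bijective_or_eq_zero (θ - sc) with hb | hb
    · exfalso
      apply hx0
      let e : X ≃ₗ[B] X := LinearEquiv.ofBijective (θ - sc) hb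
      have h6 : pre e.symm.toLinearMap (pre (θ - sc) x₁) = x₁ := by
        rw [← pre_comp]
        have : (θ - sc) ∘ₗ e.symm.toLinearMap = LinearMap.id := by
          ext x
          exact e.apply_symm_apply x
        rw [this, pre_id]
      rw [← h6, h1, pre_zero]
    · exact hb
  intro x
  have h7 : θ x = sc x := by
    have := LinearMap.congr_fun h5 x
    rw [LinearMap.sub_apply, LinearMap.zero_apply, sub_eq_zero] at this
    exact this
  rw [h7]
  change algebraMap k B c • x = c • x
  rw [algebraMap_smul]

end Pool.Agent.Helper377_G1
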