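import Pool.Agent.Helper377_G1.Defs2

/-!
Job G1-Art: torsion modules over noetherian rings of injective dimension one are artinian.
-/

set_option autoImplicit false

open CategoryTheory

namespace Pool.Agent.Helper377_G1

open Pool.Agent.Helper202_BG Pool.Agent.Helper377_AG

namespace Art

/-- modules in which every element is killed by an element with zero right annihilator -/
def Tors (B M : Type) [Ring B] [AddCommGroup M] [Module B M] : Prop :=
  ∀ m : M, ∃ c : B, (∀ x : B, c * x = 0 → x = 0) ∧ c • m = 0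

theorem Tors.sub {B M : Type} [Ring B] [AddCommGroup M] [Module B M] (h : Tors B M)
    (N : Submodule B M) : Tors B N := by
  intro m
  obtain ⟨c, hc, hm⟩ := h m
  exact ⟨c, hc, Subtype.ext (by simpa using hm)⟩

theorem Tors.quot {B M : Type} [Ring B] [AddCommGroup M] [Module B M] (h : Tors B M)
    (N : Submodule B M) : Tors B (M ⧸ N) := by
  intro m
  obtain ⟨m, rfl⟩ := N.mkQ_surjective m
  obtain ⟨c, hc, hm⟩ := h m
  exact ⟨c, hc, by rw [← map_smul, hm, map_zero]⟩

theorem Tors.hom {B M : Type} [Ring B] [AddCommGroup M] [Module B M] (h : Tors B M)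
    (ξ : E B M B 0) : ξ = 0 := by
  obtain ⟨f, rfl⟩ := hom0_surj ξ
  rw [hom0_eq_zero]
  ext x
  obtain ⟨c, hc, hx⟩ := h x
  apply hc
  rw [← smul_eq_mul, ← map_smul, hx, map_zero]

theorem Tors.subsingleton {A B : Type} [Ring A] [Ring B] (τ : Anti A B) [IsNoetherianRing A]
    [IsNoetherianRing B] (hA : IDLT A A 2) (hB : IDLT B B 2) {N : Type} [AddCommGroup N]
    [Module B N] [Module.Finite B N] (h : Tors B N) (h1 : ∀ u : E B N B 1, u = 0) :
    Subsingleton N := by
  refine taskNZ A B τ 1 hA N fun i => ?_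
  match i with
  | 0 => exact ⟨fun a b => by rw [h.hom a, h.hom b]⟩
  | 1 => exact ⟨fun a b => by rw [h1 a, h1 b]⟩
  | i + 2 =>
    exact HasInjectiveDimensionLT.subsingleton (ModuleCat.of B B) 2 (i + 2) (by omega) _

/-- the classes which vanish on a submodule -/
noncomputable def K {A B : Type} [Ring A] [Ring B] (τ : Anti A B) {M : Type} [AddCommGroup M]
    [Module B M] (N : Submodule B M) : Submodule A (EM τ.symm M (0 + 1)) where
  carrier := {u | pre N.subtype (ofEM τ.symm M (0 + 1) u) = 0}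
  add_mem' := by
    intro u v hu hv
    change pre N.subtype (ofEM τ.symm M (0 + 1) (u + v)) = 0
    rw [ofEM_add, pre_add, hu, hv, add_zero]
  zero_mem' := pre_zero _
  smul_mem' := by
    intro a u hu
    change pre N.subtype (ofEM τ.symm M (0 + 1) (a • u)) = 0
    rw [ofEM_smul, pre_post, hu, post_zero]

theorem mem_K {A B : Type} [Ring A] [Ring B] (τ : Anti A B) {M : Type} [AddCommGroup M]
    [Module B M] (N : Submodule B M) (u : E B M B 1) :
    toEM τ.symm M (0 + 1) u ∈ K τ N ↔ pre N.subtype u = 0 := Iff.rfl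

theorem K_mono {A B : Type} [Ring A] [Ring B] (τ : Anti A B) {M : Type} [AddCommGroup M]
    [Module B M] {N N' : Submodule B M} (h : N' ≤ N) : K τ N ≤ K τ N' := by
  intro u hu
  change pre N'.subtype (ofEM τ.symm M (0 + 1) u) = 0
  have h1 : N'.subtype = N.subtype ∘ₗ Submodule.inclusion h := by ext x; rfl
  rw [h1, pre_comp]
  have h2 : pre N.subtype (ofEM τ.symm M (0 + 1) u) = 0 := hu
  rw [h2, pre_zero]

theorem step {A B : Type} [Ring A] [Ring B] (τ : Anti A B) [IsNoetherianRing A]
    [IsNoetherianRing B] (hA : IDLT A A 2) (hB : IDLT B B 2) {M : Type} [AddCommGroup M]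
    [Module B M] [Module.Finite B M] (h : Tors B M) {N N' : Submodule B M} (hle : N' ≤ N)
    (hK : K τ N' ≤ K τ N) : N ≤ N' := by
  let P : Submodule B N := N'.comap N.subtype
  have hP : SES P.subtype P.mkQ := SES.mkQ P
  have hN : SES N.subtype N.mkQ := SES.mkQ N
  have hu0 : ∀ u : E B (N ⧸ P) B 1, u = 0 := by
    intro u
    have h2 : Subsingleton (E B (M ⧸ N) B (1 + 1)) :=
      HasInjectiveDimensionLT.subsingleton (ModuleCat.of B B) 2 (1 + 1) (by omega) _
    obtain ⟨y, hy⟩ := con1 hN (pre P.mkQ u) (h2.elim _ _)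
    have hyK : toEM τ.symm M (0 + 1) y ∈ K τ N' := by
      rw [mem_K]
      let e : N' →ₗ[B] P :=
        (Submodule.inclusion hle).codRestrict P (fun x => x.2)
      have h1 : N'.subtype = N.subtype ∘ₗ (P.subtype ∘ₗ e) := by ext x; rfl
      rw [h1, pre_comp, pre_comp, hy, ← pre_comp P.mkQ P.subtype]
      have h3 : P.mkQ ∘ₗ P.subtype = 0 := hP.comp_zero
      rw [h3, zero_pre, pre_zero]
    have h4 := hK hyK
    rw [mem_K, hy] at h4
    obtain ⟨ζ, hζ⟩ := con3 hP u h4
    rw [← hζ, ((h.sub N).sub P).hom ζ, dr_zero]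
  have hMn : IsNoetherian B M := isNoetherian_of_isNoetherianRing_of_finite B M
  have hs : Subsingleton (N ⧸ P) := ((h.sub N).quot P).subsingleton τ hA hB hu0
  have hPt : P = ⊤ := Submodule.Quotient.subsingleton_iff.1 hs
  intro x hx
  have : (⟨x, hx⟩ : N) ∈ P := by rw [hPt]; trivial
  exact this

end Art

theorem taskArt : TaskArt := by
  intro A B _ _ τ _ _ hA hB M _ _ _ htor
  have hn : IsNoetherian A (EM τ.symm M (0 + 1)) :=
    EM_noeth τ.symm M 0 (fun i h1 h2 => by omega)
  rw [← monotone_stabilizes_iff_artinian]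
  intro f
  let g : ℕ →o Submodule A (EM τ.symm M (0 + 1)) :=
    { toFun := fun i => Art.K τ (OrderDual.ofDual (f i))
      monotone' := fun i j hij => Art.K_mono τ (f.monotone hij) }
  obtain ⟨n, hn'⟩ := monotone_stabilizes_iff_noetherian.2 hn g
  refine ⟨n, fun m hm => ?_⟩
  have hle : OrderDual.ofDual (f m) ≤ OrderDual.ofDual (f n) := f.monotone hm
  have hK : Art.K τ (OrderDual.ofDual (f m)) ≤ Art.K τ (OrderDual.ofDual (f n)) :=
    (hn' m hm).symm.le
  exact le_antisymm hle (Art.step τ hA hB htor hle hK)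

end Pool.Agent.Helper377_G1
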