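import Pool.Agent.Helper377_G1.Defs2

/-!
JOB G1-Den (MP_112773_al, helper377).  Let `X` be a simple left `B`-module whose endomorphisms are scalars from the field `k`, such that
`B ⧸ ann X` is artinian as a left `B`-module.  Then `X` is finite-dimensional over `k`.  (Independent of the other files; only Mathlib is needed.)

PLAIN PROOF.
(1) If `x : Fin m → X` is linearly independent over `k`, then `φ : B →ₗ[B] (Fin m → X)`, `b ↦ (b • x_i)_i` is surjective: otherwise
`N := range φ` is a proper submodule of the semisimple module `Fin m → X`, let `N'` be a complement of `N` (`exists_isCompl`), `N' ≠ ⊥`, `π : (Fin m → X) →ₗ[B] N'` the projection with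
kernel `N`; some coordinate of the composite `(Fin m → X) → N' → (Fin m → X)` is a nonzero homomorphism `θ : (Fin m → X) →ₗ[B] X` with `θ ∘ φ = 0`.  Each
`θ ∘ LinearMap.single i : X →ₗ[B] X` is a scalar `c_i`, so `θ y = ∑ i, c_i • y_i`; the `c_i` are not all zero, and `θ (φ 1) = 0` says `∑ i, c_i • x_i = 0`,
contradiction to linear independence.
(2) Suppose `X` is not finite-dimensional over `k`.  Take a linearly independent sequence `x : ℕ → X`.  Let `I_n := {b | ∀ i < n, b • x i = 0}`, a decreasing sequence of left
ideals containing `ann X` (`Module.annihilator B X`).  By (1) for `m = n + 1` there is `b` with `b • x i = 0` for `i < n` and `b • x n ≠ 0`, so the sequence is strictly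
decreasing; its image in `B ⧸ ann X` (the submodules `I_n.map (Submodule.mkQ _)`, or use that submodules of the quotient correspond to submodules
containing `ann X`, `Submodule.comapMkQRelIso`) contradicts `IsArtinian`.
-/

set_option autoImplicit false

namespace Pool.Agent.Helper377_G1

namespace TaskDenAux

/-- the left ideal of elements killing `x 0, ..., x (n - 1)` -/
def kil {B X : Type} [Ring B] [AddCommGroup X] [Module B X] (x : ℕ → X) (n : ℕ) : Submodule B B where
  carrier := {b | ∀ i < n, b • x i = 0}
  add_mem' := by
    intro a b ha hb i hi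
    rw [add_smul, ha i hi, hb i hi, add_zero]
  zero_mem' := by
    intro i _
    rw [zero_smul]
  smul_mem' := by
    intro c b hb i hi
    rw [smul_eq_mul, mul_smul, hb i hi, smul_zero]

theorem kil_anti {B X : Type} [Ring B] [AddCommGroup X] [Module B X] (x : ℕ → X) {m n : ℕ}
    (h : m ≤ n) : kil (B := B) x n ≤ kil x m := fun _ hb i hi => hb i (lt_of_lt_of_le hi h)

end TaskDenAux

open TaskDenAux in
theorem taskDen : TaskDen := by
  intro k B _ _ _ X _ _ _ _ hs hend hart
  classical
  by_contra hfin
  let bs := Module.Basis.ofVectorSpace k X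
  have hinf : Infinite (Module.Basis.ofVectorSpaceIndex k X) := by
    rw [← not_finite_iff_infinite]
    intro hf
    exact hfin (Module.Finite.of_basis bs)
  let e := Infinite.natEmbedding (Module.Basis.ofVectorSpaceIndex k X)
  let x : ℕ → X := fun n => bs (e n)
  -- the chain
  let J : ℕ →o (Submodule B (B ⧸ Module.annihilator B X))ᵒᵈ :=
    ⟨fun n => OrderDual.toDual ((kil x n).map (Submodule.mkQ (Module.annihilator B X))), by
      intro m n h
      exact Submodule.map_mono (kil_anti x h)⟩
  obtain ⟨n, hn⟩ := IsArtinian.monotone_stabilizes J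
  have hJ : (kil x n).map (Submodule.mkQ (Module.annihilator B X)) =
      (kil x (n + 1)).map (Submodule.mkQ (Module.annihilator B X)) := hn (n + 1) (Nat.le_succ n)
  -- the k-linear map
  let g : X →ₗ[k] X := bs.constr k (fun j => if ∃ i < n, e i = j then 0 else bs j)
  let f : Module.End (Module.End B X) X :=
    { toFun := g
      map_add' := g.map_add
      map_smul' := by
        intro θ m
        obtain ⟨c, hc⟩ := hend θ
        change g (θ m) = θ (g m)
        rw [hc, hc, map_smul] }
  obtain ⟨r, hr⟩ := jacobson_density (R := B) f ((Finset.range (n + 1)).image x)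
  have hr' : ∀ i ≤ n, g (x i) = r • x i := fun i hi =>
    hr (x i) (Finset.mem_image_of_mem x (Finset.mem_range.mpr (Nat.lt_succ_of_le hi)))
  have h1 : ∀ i < n, r • x i = 0 := by
    intro i hi
    rw [← hr' i hi.le]
    change g (bs (e i)) = 0
    rw [Module.Basis.constr_basis, if_pos ⟨i, hi, rfl⟩]
  have h2 : r • x n = x n := by
    rw [← hr' n le_rfl]
    change g (bs (e n)) = bs (e n)
    rw [Module.Basis.constr_basis, if_neg]
    rintro ⟨i, hi, h⟩
    exact hi.ne (e.injective h)
  have h3 : Submodule.mkQ (Module.annihilator B X) r ∈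
      (kil x (n + 1)).map (Submodule.mkQ (Module.annihilator B X)) := by
    rw [← hJ]
    exact Submodule.mem_map_of_mem h1
  obtain ⟨s, hs1, hs2⟩ := h3
  have h4 : s - r ∈ Module.annihilator B X := by
    rw [← Submodule.Quotient.eq]
    exact hs2
  have h5 : (s - r) • x n = 0 := Module.mem_annihilator.mp h4 (x n)
  rw [sub_smul, hs1 n (Nat.lt_succ_self n), h2, zero_sub, neg_eq_zero] at h5
  exact bs.ne_zero (e n) h5

end Pool.Agent.Helper377_G1
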